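import Pool.Agent.Helper67.DO.BaseD

set_option autoImplicit false

/-!
# D7: real translations of the directions
-/

namespace Pool.Agent.Helper67.DO

open scoped BigOperators Real
open MeasureTheory

noncomputable section

/-! ### directions -/

theorem d7_VV_nonneg {n : ℕ} {K : ℝ} {v : ℝ → ℝ} (hv : v ∈ VV n K) : 0 ≤ K :=
  (abs_nonneg _).trans (hv.2 0)

theorem d7_VV (h2 : ST_D2) {n : ℕ} (hn : 1 ≤ n) {K A t : ℝ} {v : ℝ → ℝ} (hv : v ∈ VV n K) (ht : |t| ≤ A) :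
    (fun x => v x + t) ∈ VV n (K + A) := by
  have hK := d7_VV_nonneg hv
  have hA : 0 ≤ A := (abs_nonneg _).trans ht
  obtain ⟨⟨Φ, hΦ, Ψ, hΨ, hd⟩, hb⟩ := hv
  refine ⟨?_, fun x => (abs_add_le _ _).trans (add_le_add (hb x) ht)⟩
  rcases eq_or_lt_of_le (add_nonneg hK hA) with h0 | h0
  · have hK0 : K = 0 := by linarith
    have hA0 : A = 0 := by linarith
    have ht0 : t = 0 := abs_nonpos_iff.1 (by linarith)
    refine ⟨Φ, hΦ, Ψ, hΨ, ?_⟩
    rw [hd, hK0, hA0, ht0]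
    funext x
    ring
  · set K' := K + A
    have h1 := h2.2.2.1 n hn Φ hΦ Ψ hΨ (1 - K / K')
      (by
        have : K / K' ≤ 1 := by
          rw [div_le_one h0]
          linarith
        linarith)
      (by
        have : 0 ≤ K / K' := div_nonneg hK h0.le
        linarith)
    have h3 := (h2.2.2.2.2.1 n hn _ h1 (t / K')).1
    refine ⟨_, h3, Ψ, hΨ, ?_⟩
    rw [hd]
    funext x
    have : K' ≠ 0 := h0.ne'
    field_simp
    ring

theorem d7_one (h2 : ST_D2) {n : ℕ} (hn : 1 ≤ n) : (fun _ : ℝ => (1 : ℝ)) ∈ VV n 1 := by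
  refine ⟨⟨fun x => x + 1, h2.2.2.2.1 n hn 1, fun x => x + 0, h2.2.2.2.1 n hn 0, ?_⟩, fun x => by simp⟩
  funext x
  ring

/-- identity theorem on a strip -/
theorem d7_ident {r : ℝ} (hr : 0 < r) {f g : ℂ → ℂ} (hf : DifferentiableOn ℂ f (St r))
    (hg : DifferentiableOn ℂ g (St r)) (h : ∀ x : ℝ, f x = g x) : ∀ z ∈ St r, f z = g z := by
  have hconv : Convex ℝ (St r) := by
    have e : St r = Complex.imLm ⁻¹' (Set.Ioo (-r) r) := by
      ext z
      simp [St, abs_lt]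
    rw [e]
    exact (convex_Ioo _ _).linear_preimage _
  have h0 : (0 : ℂ) ∈ St r := by
    show |(0 : ℂ).im| < r
    simpa using hr
  refine AnalyticOnNhd.eqOn_of_preconnected_of_frequently_eq (hf.analyticOnNhd (isOpen_St r))
    (hg.analyticOnNhd (isOpen_St r)) hconv.isPreconnected h0 ?_
  have ht : Filter.Tendsto (fun k : ℕ => (((1 / ((k : ℝ) + 1)) : ℝ) : ℂ)) Filter.atTop (nhdsWithin 0 {(0 : ℂ)}ᶜ) := by
    rw [tendsto_nhdsWithin_iff]
    constructor
    · have := (Complex.continuous_ofReal.tendsto 0).comp (tendsto_one_div_add_atTop_nhds_zero_nat (𝕜 := ℝ))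
      simpa [Function.comp_def] using this
    · refine Filter.Eventually.of_forall fun k => ?_
      simp only [Set.mem_compl_iff, Set.mem_singleton_iff, Complex.ofReal_eq_zero]
      positivity
  exact ht.frequently (Filter.Frequently.of_forall fun k => h _)

theorem d7_four (h2 : ST_D2) {n : ℕ} (hn : 1 ≤ n) {ρ s M : ℝ} (hI : Inv n ρ s M) {K t : ℝ} {v : ℝ → ℝ}
    (hv : v ∈ VV n K) : ∀ z ∈ St (2 * ρ), four (fun x => v x + t) z = t * 1 + four v z := by
  have hρ : 0 < ρ := hI.pos.1.trans_le hI.pos.2.1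
  have hv' := d7_VV h2 hn hv (le_refl |t|)
  refine d7_ident (by linarith) (hI.vhol _ _ hv') ((hI.vhol _ _ hv).const_add (t * 1 : ℂ)) fun x => ?_
  rw [hI.vreal _ _ hv', hI.vreal _ _ hv]
  push_cast
  ring

theorem d7_four_one (h2 : ST_D2) {n : ℕ} (hn : 1 ≤ n) {ρ s M : ℝ} (hI : Inv n ρ s M) :
    ∀ z ∈ St (2 * ρ), four (fun _ => 1) z = 1 := by
  have hρ : 0 < ρ := hI.pos.1.trans_le hI.pos.2.1
  refine d7_ident (by linarith) (hI.vhol _ _ (d7_one h2 hn)) (differentiableOn_const 1) fun x => ?_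
  rw [hI.vreal _ _ (d7_one h2 hn)]
  simp

/-- the pulled back vector fields are bounded holomorphic -/
theorem d7_HB {n : ℕ} {ρ s M s0 : ℝ} (hI : Inv n ρ s M) (hs : s0 < s) {Φ v : ℝ → ℝ} {K : ℝ}
    (hΦ : Φ ∈ AA n) (hv : v ∈ VV n K) : HB s0 (pull ρ Φ v) ∧ ∀ z ∈ St s0, ‖pull ρ Φ v z‖ ≤ M * K := by
  have hρ : 0 < ρ := hI.pos.1.trans_le hI.pos.2.1
  have hm : Set.MapsTo (cinv ρ Φ) (St s0) (St (2 * ρ)) := fun w hw =>
    St_mono (by linarith) (hI.inv Φ hΦ w (St_mono hs.le hw)).1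
  have hb : ∀ z ∈ St s0, ‖pull ρ Φ v z‖ ≤ M * K := fun z hz => (hI.vbd K v hv _ (hm hz)).2
  refine ⟨⟨?_, ?_, ⟨_, hb⟩⟩, hb⟩
  · exact (hI.vhol K v hv).comp ((hI.invhol Φ hΦ).mono (St_mono hs.le)) hm
  · intro z hz
    unfold pull
    rw [(hI.inv Φ hΦ z (St_mono hs.le hz)).2.2, (hI.vbd K v hv _ (hm hz)).1]

theorem d7_St_sub {s0 : ℝ} {z : ℂ} (hz : z ∈ St s0) (c : ℝ) : z - (c : ℂ) ∈ St s0 := by
  have h : |z.im| < s0 := hz
  show |(z - (c : ℂ)).im| < s0
  rw [Complex.sub_im, Complex.ofReal_im, sub_zero]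
  exact h

theorem d7_shift {s0 : ℝ} {κ : ℂ → ℂ} (h : HB s0 κ) (c : ℝ) : HB s0 (fun z => κ (z - c)) := by
  have hm : ∀ z ∈ St s0, z - (c : ℂ) ∈ St s0 := fun z hz => d7_St_sub hz c
  refine ⟨h.hol.comp (differentiable_id.sub_const _).differentiableOn hm, ?_, ?_⟩
  · intro z hz
    have e : z + 1 - (c : ℂ) = z - c + 1 := by ring
    show κ (z + 1 - c) = κ (z - c)
    rw [e, h.per _ (hm z hz)]
  · obtain ⟨B, hB⟩ := h.bdd
    exact ⟨B, fun z hz => hB _ (hm z hz)⟩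

section

variable {Ω : Type} [TopologicalSpace Ω] [CompactSpace Ω] [T2Space Ω]
  [SecondCountableTopology Ω] [MeasurableSpace Ω] [BorelSpace Ω] {P : Measure Ω} [IsProbabilityMeasure P]
  {η : Ω → ℂ → ℂ} {w : Ω → (ℂ → ℂ) → ℂ} {Cw s0 : ℝ}

theorem d7_ww_int (hS : SMD s0 Ω P η w Cw) {κ : ℂ → ℂ} (h : HB s0 κ) : Integrable (fun ω => ww w ω κ) (PP P) := by
  unfold PP
  have hm : AEStronglyMeasurable (fun ω : Ω × ℝ => ww w ω κ) (P.prod (volume.restrict (Set.Icc 0 1))) :=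
    (hS.meas κ h).aestronglyMeasurable
  rw [integrable_prod_iff' hm]
  obtain ⟨B, hB⟩ := h.bdd
  constructor
  · exact Filter.Eventually.of_forall fun c => hS.int _ (d7_shift h c)
  · refine Integrable.of_bound ?_ (Cw * B) (Filter.Eventually.of_forall fun c => ?_)
    · exact (hm.norm.prod_swap).integral_prod_right'
    · have h1 := hS.bdd _ B (d7_shift h c) (fun z hz => hB _ (d7_St_sub hz c))
      rw [Real.norm_of_nonneg (integral_nonneg fun _ => norm_nonneg _)]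
      exact h1

/-- a.e. additivity -/
theorem d7_ww_ae (hS : SMD s0 Ω P η w Cw) {κ κ1 κ2 : ℂ → ℂ} {t : ℂ} (h : HB s0 κ) (h1 : HB s0 κ1) (h2 : HB s0 κ2)
    (he : ∀ z ∈ St s0, κ z = t * κ1 z + κ2 z) : ∀ᵐ ω ∂(PP P), ww w ω κ = t * ww w ω κ1 + ww w ω κ2 := by
  unfold PP
  have hm : MeasurableSet {ω : Ω × ℝ | ww w ω κ = t * ww w ω κ1 + ww w ω κ2} :=
    measurableSet_eq_fun (hS.meas κ h) (((hS.meas κ1 h1).const_mul t).add (hS.meas κ2 h2))
  rw [Measure.ae_prod_iff_ae_ae hm, Measure.ae_ae_comm (p := fun a b => ww w (a, b) κ = t * ww w (a, b) κ1 + ww w (a, b) κ2) hm]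
  refine Filter.Eventually.of_forall fun c => ?_
  have a1 := hS.lin _ _ t (d7_shift h1 c) (d7_shift h2 c)
  have a2 := hS.ext _ (fun z => t * κ1 (z - c) + κ2 (z - c)) (d7_shift h c) (fun z hz => he _ (d7_St_sub hz c))
  filter_upwards [a1, a2] with ω b1 b2
  show w ω (fun z => κ (z - c)) = t * w ω (fun z => κ1 (z - c)) + w ω (fun z => κ2 (z - c))
  rw [b2, b1]

/-- test functions -/
def d7_tf (K : ℕ) (m : Fin K → ℤ) (x : Fin K → ℝ) (Φ : ℝ → ℝ) : ℂ :=
  Complex.exp (2 * π * Complex.I * ∑ k, (m k : ℂ) * (Φ (x k) : ℂ))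

theorem d7_tf_norm (K : ℕ) (m : Fin K → ℤ) (x : Fin K → ℝ) (Φ : ℝ → ℝ) : ‖d7_tf K m x Φ‖ = 1 := by
  unfold d7_tf
  have e : (2 * π * Complex.I * ∑ k, (m k : ℂ) * (Φ (x k) : ℂ)) =
      ((2 * π * ∑ k, (m k : ℝ) * Φ (x k) : ℝ) : ℂ) * Complex.I := by
    push_cast
    ring
  rw [e]
  exact Complex.norm_exp_ofReal_mul_I _

theorem d7_gg_cont (h0 : 0 < s0) (hS : SMD s0 Ω P η w Cw) (Φ : ℝ → ℝ) (x : ℝ) :
    Continuous fun ω : Ω × ℝ => gg η ω Φ x := by
  unfold gg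
  refine Complex.continuous_re.comp ?_
  have h1 : Continuous fun ω : Ω × ℝ => (ω.1, ((Φ x + ω.2 : ℝ) : ℂ)) := by
    fun_prop
  refine hS.cont.comp_continuous h1 fun ω => ⟨Set.mem_univ _, ?_⟩
  show |((Φ x + ω.2 : ℝ) : ℂ).im| < s0 / 4
  rw [Complex.ofReal_im]
  simpa using h0

theorem d7_tf_cont (h0 : 0 < s0) (hS : SMD s0 Ω P η w Cw) (K : ℕ) (m : Fin K → ℤ) (x : Fin K → ℝ) (Φ : ℝ → ℝ) :
    Continuous fun ω : Ω × ℝ => d7_tf K m x (gg η ω Φ) := by
  unfold d7_tf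
  refine Complex.continuous_exp.comp (continuous_const.mul ?_)
  exact continuous_finsetSum _ fun k _ => continuous_const.mul (Complex.continuous_ofReal.comp (d7_gg_cont h0 hS Φ (x k)))

/-- rotation invariance -/
theorem d7_rot (h0 : 0 < s0) (hS : SMD s0 Ω P η w Cw) (K : ℕ) (m : Fin K → ℤ) (x : Fin K → ℝ) (Φ : ℝ → ℝ) (t : ℝ) :
    ∫ ω, d7_tf K m x (gg η ω (fun y => Φ y + t)) ∂(PP P) = ∫ ω, d7_tf K m x (gg η ω Φ) ∂(PP P) := by
  have hI : ∀ Ψ : ℝ → ℝ, Integrable (fun ω : Ω × ℝ => d7_tf K m x (gg η ω Ψ)) (P.prod (volume.restrict (Set.Icc 0 1))) :=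
    fun Ψ => Integrable.of_bound (d7_tf_cont h0 hS K m x Ψ).aestronglyMeasurable 1
      (Filter.Eventually.of_forall fun ω => (d7_tf_norm K m x _).le)
  unfold PP
  rw [integral_prod _ (hI _), integral_prod _ (hI _)]
  refine integral_congr_ae (Filter.Eventually.of_forall fun ω => ?_)
  show ∫ c in Set.Icc (0 : ℝ) 1, d7_tf K m x (gg η (ω, c) (fun y => Φ y + t)) =
    ∫ c in Set.Icc (0 : ℝ) 1, d7_tf K m x (gg η (ω, c) Φ)
  have e1 : ∀ c : ℝ, gg η (ω, c) (fun y => Φ y + t) = gg η (ω, c + t) Φ := by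
    intro c
    funext y
    unfold gg
    show (η ω ((Φ y + t + c : ℝ) : ℂ)).re = (η ω ((Φ y + (c + t) : ℝ) : ℂ)).re
    rw [show Φ y + t + c = Φ y + (c + t) by ring]
  have hp : Function.Periodic (fun c : ℝ => d7_tf K m x (gg η (ω, c) Φ)) 1 := by
    intro c
    have e2 : gg η (ω, c + 1) Φ = fun y => gg η (ω, c) Φ y + 1 := by
      funext y
      unfold gg
      show (η ω ((Φ y + (c + 1) : ℝ) : ℂ)).re = (η ω ((Φ y + c : ℝ) : ℂ)).re + 1
      have e3 : ((Φ y + (c + 1) : ℝ) : ℂ) = ((Φ y + c : ℝ) : ℂ) + 1 := by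
        push_cast
        ring
      rw [e3, (hS.adm ω).per]
      · simp
      · show |((Φ y + c : ℝ) : ℂ).im| < s0 / 4
        rw [Complex.ofReal_im]
        simpa using h0
    show d7_tf K m x (gg η (ω, c + 1) Φ) = d7_tf K m x (gg η (ω, c) Φ)
    rw [e2]
    unfold d7_tf
    have e4 : (2 * π * Complex.I * ∑ k, (m k : ℂ) * ((gg η (ω, c) Φ (x k) + 1 : ℝ) : ℂ)) =
        (2 * π * Complex.I * ∑ k, (m k : ℂ) * (gg η (ω, c) Φ (x k) : ℂ)) + ((∑ k, m k : ℤ) : ℂ) * (2 * π * Complex.I) := by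
      push_cast
      rw [Finset.sum_congr rfl fun k _ => mul_add (m k : ℂ) _ _, Finset.sum_add_distrib]
      simp only [mul_one]
      ring
    rw [e4, Complex.exp_add, Complex.exp_int_mul_two_pi_mul_I, mul_one]
  simp only [e1]
  rw [integral_Icc_eq_integral_Ioc, integral_Icc_eq_integral_Ioc,
    ← intervalIntegral.integral_of_le zero_le_one, ← intervalIntegral.integral_of_le zero_le_one,
    intervalIntegral.integral_comp_add_right (fun c => d7_tf K m x (gg η (ω, c) Φ)) t]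
  have := hp.intervalIntegral_add_eq t 0
  rw [zero_add] at this
  rw [zero_add, add_comm 1 t]
  exact this

theorem d7_fin : IsFiniteMeasure (PP P) := by
  unfold PP
  infer_instance

/-- the expectation of a test function against the weight of the constant field vanishes -/
theorem d7_key0 (h2 : ST_D2) (h6 : ST_D6) {n n' : ℕ} {ρ s M : ℝ} (hn : 1 ≤ n)
    (hX : Ctx n n' ρ s M s0 Ω P η w Cw) (K : ℕ) (m : Fin K → ℤ) (x : Fin K → ℝ) {Φ : ℝ → ℝ} (hΦ : Φ ∈ AA n) :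
    ∫ ω, d7_tf K m x (gg η ω Φ) * ww w ω (pull ρ Φ (fun _ => 1)) ∂(PP P) = 0 := by
  set y : Sq := fun k => if k = 0 then Φ else fun z => Φ z + 1 with hy
  have hyA : ∀ k, y k ∈ AA n := by
    intro k
    rw [hy]
    show (if k = 0 then Φ else fun z => Φ z + 1) ∈ AA n
    split_ifs
    · exact hΦ
    · exact (h2.2.2.2.2.1 n hn Φ hΦ 1).1
  have h := (h6 n n' ρ s M s0 Ω P η w Cw hX K x m 1 y hyA).2 0
    ⟨le_refl _, fun _ => zero_le_one⟩ 0
  have l0 : ∀ u : Fin 1 → ℝ, lam 1 0 u = 1 - u 0 := by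
    intro u
    simp [lam]
  have l1 : ∀ u : Fin 1 → ℝ, lam 1 1 u = u 0 := by
    intro u
    simp [lam]
  have eP : ∀ u : Fin 1 → ℝ, Phi 1 y u = fun z => Φ z + u 0 := by
    intro u
    unfold Phi
    funext z
    rw [Finset.sum_range_succ, Finset.sum_range_one, l0, l1]
    show (1 - u 0) * Φ z + u 0 * (Φ z + 1) = Φ z + u 0
    ring
  have eP0 : Phi 1 y 0 = Φ := by
    rw [eP]
    funext z
    simp
  have eD : dPhi 1 y 0 0 = fun _ => 1 := by
    unfold dPhi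
    funext z
    rw [Finset.sum_range_succ, Finset.sum_range_one, dlam_eq, dlam_eq, l0, l0, l1, l1]
    simp only [Function.update_self]
    show (1 - 1 - (1 - 0)) * Φ z + (1 - 0) * (Φ z + 1) = (1 : ℝ)
    ring
  rw [eP0, eD] at h
  have hc : (fun t : ℝ => ∫ ω, Complex.exp (2 * π * Complex.I *
      ∑ k, (m k : ℂ) * ((gg η ω (Phi 1 y (Function.update (0 : Fin 1 → ℝ) 0 t)) (x k) : ℝ) : ℂ)) ∂(PP P)) =
      fun _ => ∫ ω, d7_tf K m x (gg η ω Φ) ∂(PP P) := by
    funext t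
    rw [← d7_rot hX.s0pos hX.smd K m x Φ t]
    refine integral_congr_ae (Filter.Eventually.of_forall fun ω => ?_)
    show Complex.exp _ = d7_tf K m x (gg η ω (fun y => Φ y + t))
    rw [eP]
    simp only [Function.update_self]
    rfl
  have h' : HasDerivAt (fun t : ℝ => ∫ ω, Complex.exp (2 * π * Complex.I *
      ∑ k, (m k : ℂ) * ((gg η ω (Phi 1 y (Function.update (0 : Fin 1 → ℝ) 0 t)) (x k) : ℝ) : ℂ)) ∂(PP P))
      (∫ ω, d7_tf K m x (gg η ω Φ) * ww w ω (pull ρ Φ (fun _ => 1)) ∂(PP P)) ((0 : Fin 1 → ℝ) 0) := h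
  rw [hc] at h'
  exact h'.unique (hasDerivAt_const _ _)

theorem d7_key1 (h2 : ST_D2) (h6 : ST_D6) {n n' : ℕ} {ρ s M : ℝ} (hn : 1 ≤ n)
    (hX : Ctx n n' ρ s M s0 Ω P η w Cw) (K : ℕ) (m : Fin K → ℤ) (x : Fin K → ℝ) {Φ : ℝ → ℝ} (hΦ : Φ ∈ AA n)
    {L t : ℝ} {v : ℝ → ℝ} (hv : v ∈ VV n L) :
    ∫ ω, d7_tf K m x (gg η ω Φ) * ww w ω (pull ρ Φ (fun z => v z + t)) ∂(PP P) =
      ∫ ω, d7_tf K m x (gg η ω Φ) * ww w ω (pull ρ Φ v) ∂(PP P) := by
  have hρ : 0 < ρ := hX.inv.pos.1.trans_le hX.inv.pos.2.1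
  have hv' := d7_VV h2 hn hv (le_refl |t|)
  have b1 := (d7_HB hX.inv hX.s0lt hΦ (d7_one h2 hn)).1
  have b2 := (d7_HB hX.inv hX.s0lt hΦ hv).1
  have b3 := (d7_HB hX.inv hX.s0lt hΦ hv').1
  have ha := d7_ww_ae hX.smd (t := (t : ℂ)) b3 b1 b2 (by
    intro z hz
    have hc : cinv ρ Φ z ∈ St (2 * ρ) := St_mono (by linarith) (hX.inv.inv Φ hΦ z (St_mono hX.s0lt.le hz)).1
    unfold pull
    rw [d7_four h2 hn hX.inv hv _ hc, d7_four_one h2 hn hX.inv _ hc])
  have _ := d7_fin (P := P)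
  have hI : ∀ κ, HB s0 κ → Integrable (fun ω => d7_tf K m x (gg η ω Φ) * ww w ω κ) (PP P) := fun κ hκ =>
    (d7_ww_int hX.smd hκ).bdd_mul (d7_tf_cont hX.s0pos hX.smd K m x Φ).aestronglyMeasurable
      (Filter.Eventually.of_forall fun ω => (d7_tf_norm K m x _).le)
  have e1 : ∫ ω, d7_tf K m x (gg η ω Φ) * ww w ω (pull ρ Φ (fun z => v z + t)) ∂(PP P) =
      ∫ ω, (t * (d7_tf K m x (gg η ω Φ) * ww w ω (pull ρ Φ (fun _ => 1))) +
        d7_tf K m x (gg η ω Φ) * ww w ω (pull ρ Φ v)) ∂(PP P) := by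
    refine integral_congr_ae ?_
    filter_upwards [ha] with ω hω
    rw [hω]
    ring
  rw [e1, integral_add ((hI _ b1).const_mul _) (hI _ b2), integral_const_mul,
    d7_key0 h2 h6 hn hX K m x hΦ, mul_zero, zero_add]

end

/-- the module D7 -/
theorem st_D7 (h2 : ST_D2) (h5 : ST_D5) (h6 : ST_D6) (h8 : ST_D8) : ST_D7 := by
  intro n n' p ρ s M s0 Ω _ _ _ _ _ _ P _ η w Cw hX C hC j hj y v t K hy hv
  have hn : 1 ≤ n := hX.good.1
  haveI := d7_fin (P := P)
  have hK := d7_VV_nonneg (hv 0)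
  set A : ℝ := ∑ b ∈ Finset.range j, |t b| with hA
  have hA0 : 0 ≤ A := Finset.sum_nonneg fun _ _ => abs_nonneg _
  set t' : ℕ → ℝ := fun b => if b < j then t b else 0 with ht'
  have ht'A : ∀ b, |t' b| ≤ A := by
    intro b
    rw [ht']
    show |if b < j then t b else 0| ≤ A
    split_ifs with hb
    · exact Finset.single_le_sum (f := fun b => |t b|) (fun _ _ => abs_nonneg _) (Finset.mem_range.2 hb)
    · simpa using hA0
  have hv1 : ∀ b, (fun x => v b x + t' b) ∈ VV n (K + A) := fun b => d7_VV h2 hn (hv b) (ht'A b)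
  have hv0 : ∀ b, v b ∈ VV n (K + A) := by
    intro b
    have := d7_VV h2 hn (t := 0) (hv b) (by simpa using hA0)
    simpa using this
  -- the integrands
  set Y : (Fin (p + 1) → Ω × ℝ) → Sq := fun ω k => if h : k < p + 1 then gg η (ω ⟨k, h⟩) (y k) else y k with hY
  set G : Sq → (Fin (p + 1) → Ω × ℝ) → ℂ := fun u ω =>
    ∏ b : Fin (p + 1), (if (b : ℕ) < j then ww w (ω b) (pull ρ (y b) (u b)) else 1) with hG
  have hCJ : ∀ u : Sq, CJ P η w ρ p C j y u = ∫ ω, C (Y ω) * G u ω ∂(Measure.pi fun _ => PP P) := fun u => rfl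
  have hGc : G (fun b x => v b x + t b) = G (fun b x => v b x + t' b) := by
    rw [hG]
    funext ω
    refine Finset.prod_congr rfl fun b _ => ?_
    split_ifs with hb
    · rw [ht']
      simp only [hb, if_true]
    · rfl
  have hgi : ∀ (u : Sq), (∀ b, u b ∈ VV n (K + A)) → ∀ (N : ℕ) (m : Fin N → ℤ) (x : Fin N → ℝ) (b : Fin (p + 1)),
      Integrable (fun ω : Ω × ℝ => d7_tf N m x (gg η ω (y b)) *
        (if (b : ℕ) < j then ww w ω (pull ρ (y b) (u b)) else 1)) (PP P) := by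
    intro u hu N m x b
    split_ifs
    · exact (d7_ww_int hX.smd (d7_HB hX.inv hX.s0lt (hy b) (hu b)).1).bdd_mul
        (d7_tf_cont hX.s0pos hX.smd N m x (y b)).aestronglyMeasurable
        (Filter.Eventually.of_forall fun ω => (d7_tf_norm N m x _).le)
    · simp only [mul_one]
      exact Integrable.of_bound (d7_tf_cont hX.s0pos hX.smd N m x (y b)).aestronglyMeasurable 1
        (Filter.Eventually.of_forall fun ω => (d7_tf_norm N m x _).le)
  have hGi : ∀ (u : Sq), (∀ b, u b ∈ VV n (K + A)) → Integrable (G u) (Measure.pi fun _ => PP P) := by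
    intro u hu
    have := Integrable.fintype_prod (μ := fun _ : Fin (p + 1) => PP P)
      (f := fun (b : Fin (p + 1)) (ω : Ω × ℝ) => (if (b : ℕ) < j then ww w ω (pull ρ (y b) (u b)) else 1))
      (fun b => by
        have := hgi u hu 0 Fin.elim0 Fin.elim0 b
        simpa [d7_tf] using this)
    exact this
  have hCi : ∀ (u : Sq), (∀ b, u b ∈ VV n (K + A)) →
      Integrable (fun ω => C (Y ω) * G u ω) (Measure.pi fun _ => PP P) := fun u hu =>
    (h5 n n' p ρ s M s0 Ω P η w Cw hX C hC).1 j hj y u (K + A) hy hu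
  have hYA : ∀ ω k, Y ω k ∈ AA n' := by
    intro ω k
    rw [hY]
    show (if h : k < p + 1 then gg η (ω ⟨k, h⟩) (y k) else y k) ∈ AA n'
    split_ifs with h
    · exact hX.good.2.2 _ (hX.smd.adm _) (y k) (hy k) _
    · exact h2.1 n n' hn hX.good.2.1 (hy k)
  rw [hCJ, hCJ, hGc]
  set u1 : Sq := fun b x => v b x + t' b with hu1
  set L : ℝ := ∫ ω, (‖G u1 ω‖ + ‖G v ω‖) ∂(Measure.pi fun _ => PP P) with hL
  have hL0 : 0 ≤ L := integral_nonneg fun ω => add_nonneg (norm_nonneg _) (norm_nonneg _)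
  have key : ∀ ε : ℝ, 0 < ε → ‖(∫ ω, C (Y ω) * G u1 ω ∂(Measure.pi fun _ => PP P)) -
      ∫ ω, C (Y ω) * G v ω ∂(Measure.pi fun _ => PP P)‖ ≤ ε * L := by
    intro ε hε
    obtain ⟨J, N, a, m, x, hT⟩ := h8 n' p (hn.trans hX.good.2.1) C hC ε hε
    set T : (Fin (p + 1) → Ω × ℝ) → ℂ := fun ω => ∑ i, a i * ∏ b : Fin (p + 1), d7_tf N (m i b) x (gg η (ω b) (y b)) with hTd
    have hTY : ∀ ω, ‖C (Y ω) - T ω‖ ≤ ε := by
      intro ω
      have h := hT (Y ω) (hYA ω)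
      have e : T ω = ∑ i, a i * ∏ b : Fin (p + 1),
          Complex.exp (2 * π * Complex.I * ∑ k, (m i b k : ℂ) * (Y ω b (x k) : ℂ)) := by
        rw [hTd]
        refine Finset.sum_congr rfl fun i _ => ?_
        congr 1
        refine Finset.prod_congr rfl fun b _ => ?_
        have e1 : Y ω (b : ℕ) = gg η (ω b) (y b) := by
          rw [hY]
          show (if h : (b : ℕ) < p + 1 then gg η (ω ⟨b, h⟩) (y b) else y b) = _
          rw [dif_pos b.2]
        rw [e1]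
        rfl
      rw [e]
      exact h
    have hprod : ∀ (u : Sq) (i : Fin J) (ω : Fin (p + 1) → Ω × ℝ),
        (∏ b : Fin (p + 1), d7_tf N (m i b) x (gg η (ω b) (y b))) * G u ω =
        ∏ b : Fin (p + 1), (fun (b : Fin (p + 1)) (ω : Ω × ℝ) => d7_tf N (m i b) x (gg η ω (y b)) *
          (if (b : ℕ) < j then ww w ω (pull ρ (y b) (u b)) else 1)) b (ω b) := by
      intro u i ω
      rw [hG]
      exact Finset.prod_mul_distrib.symm
    have hTe : ∀ u : Sq, (fun ω => T ω * G u ω) = fun ω => ∑ i, a i *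
        ∏ b : Fin (p + 1), (fun (b : Fin (p + 1)) (ω : Ω × ℝ) => d7_tf N (m i b) x (gg η ω (y b)) *
          (if (b : ℕ) < j then ww w ω (pull ρ (y b) (u b)) else 1)) b (ω b) := by
      intro u
      funext ω
      rw [hTd]
      simp only
      rw [Finset.sum_mul]
      refine Finset.sum_congr rfl fun i _ => ?_
      rw [mul_assoc, hprod u i ω]
    have hTi0 : ∀ (u : Sq), (∀ b, u b ∈ VV n (K + A)) → ∀ i, Integrable (fun ω : Fin (p + 1) → Ω × ℝ =>
        ∏ b : Fin (p + 1), (fun (b : Fin (p + 1)) (ω : Ω × ℝ) => d7_tf N (m i b) x (gg η ω (y b)) *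
          (if (b : ℕ) < j then ww w ω (pull ρ (y b) (u b)) else 1)) b (ω b)) (Measure.pi fun _ => PP P) :=
      fun u hu i => Integrable.fintype_prod (μ := fun _ : Fin (p + 1) => PP P) (fun b => hgi u hu N (m i b) x b)
    have hTi : ∀ (u : Sq), (∀ b, u b ∈ VV n (K + A)) →
        Integrable (fun ω => T ω * G u ω) (Measure.pi fun _ => PP P) := by
      intro u hu
      rw [hTe u]
      exact integrable_finsetSum _ fun i _ => (hTi0 u hu i).const_mul _
    have hTint : ∀ (u : Sq), (∀ b, u b ∈ VV n (K + A)) → ∫ ω, T ω * G u ω ∂(Measure.pi fun _ => PP P) =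
        ∑ i, a i * ∏ b : Fin (p + 1), ∫ ω : Ω × ℝ, d7_tf N (m i b) x (gg η ω (y b)) *
          (if (b : ℕ) < j then ww w ω (pull ρ (y b) (u b)) else 1) ∂(PP P) := by
      intro u hu
      rw [hTe u, integral_finsetSum _ fun i _ => (hTi0 u hu i).const_mul _]
      refine Finset.sum_congr rfl fun i _ => ?_
      rw [integral_const_mul]
      congr 1
      exact integral_fintype_prod_eq_prod (μ := fun _ : Fin (p + 1) => PP P)
        (fun (b : Fin (p + 1)) (ω : Ω × ℝ) => d7_tf N (m i b) x (gg η ω (y b)) *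
          (if (b : ℕ) < j then ww w ω (pull ρ (y b) (u b)) else 1))
    have hT0 : ∫ ω, T ω * G u1 ω ∂(Measure.pi fun _ => PP P) = ∫ ω, T ω * G v ω ∂(Measure.pi fun _ => PP P) := by
      rw [hTint u1 hv1, hTint v hv0]
      refine Finset.sum_congr rfl fun i _ => ?_
      congr 1
      refine Finset.prod_congr rfl fun b _ => ?_
      split_ifs
      · exact d7_key1 h2 h6 hn hX N (m i b) x (hy b) (hv b)
      · rfl
    have e2 : (∫ ω, C (Y ω) * G u1 ω ∂(Measure.pi fun _ => PP P)) - ∫ ω, C (Y ω) * G v ω ∂(Measure.pi fun _ => PP P) =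
        ∫ ω, ((C (Y ω) * G u1 ω - C (Y ω) * G v ω) - (T ω * G u1 ω - T ω * G v ω)) ∂(Measure.pi fun _ => PP P) := by
      have i1 : Integrable (fun ω => C (Y ω) * G u1 ω - C (Y ω) * G v ω) (Measure.pi fun _ => PP P) :=
        (hCi u1 hv1).sub (hCi v hv0)
      have i2 : Integrable (fun ω => T ω * G u1 ω - T ω * G v ω) (Measure.pi fun _ => PP P) :=
        (hTi u1 hv1).sub (hTi v hv0)
      rw [integral_sub i1 i2, integral_sub (hCi u1 hv1) (hCi v hv0), integral_sub (hTi u1 hv1) (hTi v hv0), hT0,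
        sub_self, sub_zero]
    rw [e2, hL, ← integral_const_mul]
    refine norm_integral_le_of_norm_le (((hGi u1 hv1).norm.add (hGi v hv0).norm).const_mul ε)
      (Filter.Eventually.of_forall fun ω => ?_)
    have e3 : (C (Y ω) * G u1 ω - C (Y ω) * G v ω) - (T ω * G u1 ω - T ω * G v ω) =
        (C (Y ω) - T ω) * (G u1 ω - G v ω) := by ring
    rw [e3, norm_mul]
    exact mul_le_mul (hTY ω) (norm_sub_le _ _) (norm_nonneg _) hε.le
  have hz : ‖(∫ ω, C (Y ω) * G u1 ω ∂(Measure.pi fun _ => PP P)) -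
      ∫ ω, C (Y ω) * G v ω ∂(Measure.pi fun _ => PP P)‖ ≤ 0 := by
    refine le_of_forall_pos_le_add fun δ hδ => ?_
    have h1 := key (δ / (L + 1)) (by positivity)
    refine h1.trans ?_
    rw [zero_add, div_mul_eq_mul_div, div_le_iff₀ (by positivity)]
    nlinarith
  exact sub_eq_zero.1 (norm_le_zero_iff.1 hz)

end

end Pool.Agent.Helper67.DO
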