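import Pool.Agent.Helper67.DO.StmtsT

set_option autoImplicit false

/-!
# T1: classes of lifts
-/

namespace Pool.Agent.Helper67.DO

open scoped BigOperators Real

noncomputable section

theorem t1_coe_eq {a b : ℝ} : ((a : ℝ) : UnitAddCircle) = ((b : ℝ) : UnitAddCircle) ↔ ∃ k : ℤ, a = b + k := by
  constructor
  · intro h
    have h1 : ((a - b : ℝ) : UnitAddCircle) = 0 := by
      rw [AddCircle.coe_sub, h, sub_self]
    rw [AddCircle.coe_eq_zero_iff] at h1
    obtain ⟨n, hn⟩ := h1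
    refine ⟨n, ?_⟩
    simp only [zsmul_eq_mul, mul_one] at hn
    linarith
  · rintro ⟨k, hk⟩
    have h1 : ((a - b : ℝ) : UnitAddCircle) = 0 := by
      rw [AddCircle.coe_eq_zero_iff]
      refine ⟨k, ?_⟩
      simp only [zsmul_eq_mul, mul_one]
      linarith
    rw [AddCircle.coe_sub] at h1
    exact sub_eq_zero.1 h1

theorem t1_coe_surj (x : UnitAddCircle) : ∃ a : ℝ, (a : UnitAddCircle) = x :=
  QuotientAddGroup.mk_surjective x

/-- the induced map -/
def t1_ind {F : ℝ → ℝ} (h : IsLift F) : UnitAddCircle → UnitAddCircle :=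
  Function.Periodic.lift (f := fun x : ℝ => ((F x : ℝ) : UnitAddCircle)) (c := (1 : ℝ)) (by
    intro x
    show ((F (x + 1) : ℝ) : UnitAddCircle) = ((F x : ℝ) : UnitAddCircle)
    rw [h.per, t1_coe_eq]
    exact ⟨1, by simp⟩)

theorem t1_ind_coe {F : ℝ → ℝ} (h : IsLift F) (x : ℝ) :
    t1_ind h (x : UnitAddCircle) = ((F x : ℝ) : UnitAddCircle) := rfl

theorem t1_exists {F : ℝ → ℝ} (h : IsLift F) : ∃ f : DiffOmega, LiftG f F := by
  obtain ⟨Ψ, hΨ, hr, hl⟩ := h.exists_inv
  let f : Equiv.Perm UnitAddCircle :=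
    { toFun := t1_ind h
      invFun := t1_ind hΨ
      left_inv := by
        intro x
        obtain ⟨a, rfl⟩ := t1_coe_surj x
        rw [t1_ind_coe, t1_ind_coe, hl]
      right_inv := by
        intro x
        obtain ⟨a, rfl⟩ := t1_coe_surj x
        rw [t1_ind_coe, t1_ind_coe, hr] }
  have hf : LiftOf f F := ⟨h, fun x => rfl⟩
  exact ⟨⟨f, F, hf⟩, hf⟩

theorem t1_cls {F : ℝ → ℝ} (h : IsLift F) : LiftG (cls F) F := by
  unfold cls
  rw [dif_pos (t1_exists h)]
  exact (t1_exists h).choose_spec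

theorem t1_uniq (f g : DiffOmega) (F : ℝ → ℝ) (hf : LiftG f F) (hg : LiftG g F) : f = g := by
  apply Subtype.ext
  apply Equiv.ext
  intro x
  obtain ⟨a, rfl⟩ := t1_coe_surj x
  rw [hf.2 a, hg.2 a]

theorem t1_lifts (f : DiffOmega) (F H : ℝ → ℝ) (hF : LiftG f F) (hH : LiftG f H) :
    ∃ k : ℤ, ∀ x, H x = F x + k := by
  have h1 : ∀ x, ∃ k : ℤ, H x = F x + k := by
    intro x
    have := (hH.2 x).symm.trans (hF.2 x)
    exact t1_coe_eq.1 this
  have hc : Continuous fun x => H x - F x := hH.1.cont.sub hF.1.cont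
  have key : ∀ x y, ¬ (H x - F x < H y - F y) := by
    intro x y hlt
    obtain ⟨k, hk⟩ := h1 x
    obtain ⟨l, hl⟩ := h1 y
    have hkl : k < l := by
      have : (k : ℝ) < l := by linarith
      exact_mod_cast this
    have hkl' : (k : ℝ) + 1 ≤ l := by exact_mod_cast hkl
    obtain ⟨z, hz⟩ := mem_range_of_exists_le_of_exists_ge hc (c := (k : ℝ) + 1 / 2)
      ⟨x, by linarith⟩ ⟨y, by linarith⟩
    obtain ⟨m, hm⟩ := h1 z
    have hz' : H z - F z = (k : ℝ) + 1 / 2 := hz
    have h2 : (m : ℝ) = k + 1 / 2 := by linarith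
    have h3 : (2 * m : ℤ) = 2 * k + 1 := by
      have : (2 * m : ℝ) = 2 * k + 1 := by linarith
      exact_mod_cast this
    omega
  obtain ⟨k, hk⟩ := h1 0
  refine ⟨k, fun x => ?_⟩
  have h2 := key x 0
  have h3 := key 0 x
  have h4 : H x - F x = H 0 - F 0 := le_antisymm (not_lt.1 h3) (not_lt.1 h2)
  linarith

theorem t1_add {F : ℝ → ℝ} (h : IsLift F) (k : ℤ) : IsLift (fun x => F x + k) where
  an x := (h.an x).add analyticAt_const
  per x := by rw [h.per]; ring
  pos x := by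
    rw [deriv_add_const]
    exact h.pos x

/-- the module T1 -/
theorem st_T1 : ST_T1 := by
  refine ⟨fun F h => t1_cls h, t1_uniq, t1_lifts, ?_, ?_, ?_⟩
  · intro F H hF hH
    refine t1_uniq _ _ (fun x => F (H x)) (t1_cls (hF.comp hH)) ⟨hF.comp hH, fun x => ?_⟩
    have h1 := (t1_cls hF).2 (H x)
    have h2 := (t1_cls hH).2 x
    show ((cls F : Equiv.Perm UnitAddCircle) * (cls H : Equiv.Perm UnitAddCircle)) (x : UnitAddCircle) = _
    rw [Equiv.Perm.mul_apply, h2, h1]
  · intro F k hF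
    refine t1_uniq _ _ (fun x => F x + k) (t1_cls (t1_add hF k)) ⟨t1_add hF k, fun x => ?_⟩
    rw [(t1_cls hF).2 x, t1_coe_eq]
    exact ⟨-k, by push_cast; ring⟩
  · intro f
    have h := (exists_liftG f).choose_spec
    exact t1_uniq _ _ (lft f) (t1_cls h.1) h

end

end Pool.Agent.Helper67.DO
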