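import Pool.Agent.Helper67.DO.StmtsT

set_option autoImplicit false

/-!
# T2: first three parts of the final statement
-/

namespace Pool.Agent.Helper67.DO

open scoped BigOperators Real

noncomputable section

theorem t2_tau (F : ℝ → ℝ) (k : ℤ) (hF : IsLift F) : tau (fun x => F x + k) = tau F + k := by
  unfold tau
  have e : (fun x : ℝ => F x + (k : ℝ) - x) = fun x => (F x - x) + (k : ℝ) := by
    funext x
    ring
  rw [e, intervalIntegral.integral_add]
  · simp
  · exact (hF.cont.sub continuous_id).intervalIntegrable _ _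
  · exact continuous_const.intervalIntegrable _ _

theorem t2_lft (hT : ST_T1) (f : DiffOmega) (F : ℝ → ℝ) (hF : LiftG f F) :
    ∃ k : ℤ, lft f = fun x => F x + k := by
  have h := (exists_liftG f).choose_spec
  obtain ⟨k, hk⟩ := hT.2.2.1 f F (lft f) hF h
  exact ⟨k, funext hk⟩

/-- the module T2 -/
theorem st_T2 (hT : ST_T1) : ST_T2 := by
  refine ⟨?_, t2_tau, ?_⟩
  · intro f g F H hF hH
    obtain ⟨k, hk⟩ := t2_lft hT f F hF
    obtain ⟨l, hl⟩ := t2_lft hT g H hH
    unfold eul
    have e : (fun x => lft f (lft g x)) = fun x => (fun x => F (H x)) x + ((l + k : ℤ) : ℝ) := by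
      funext x
      rw [hk, hl]
      show F (H x + (l : ℝ)) + k = F (H x) + ((l + k : ℤ) : ℝ)
      rw [hF.1.perInt]
      push_cast
      ring
    rw [e, t2_tau _ _ (hF.1.comp hH.1), hk, hl, t2_tau _ _ hF.1, t2_tau _ _ hH.1]
    push_cast
    ring
  · intro f g F H hF hH
    obtain ⟨k, hk⟩ := t2_lft hT f F hF
    obtain ⟨l, hl⟩ := t2_lft hT g H hH
    unfold gvc
    have e : (fun x => lft f (lft g x)) = fun x => F (H x) + ((l + k : ℤ) : ℝ) := by
      funext x
      rw [hk, hl]
      show F (H x + (l : ℝ)) + k = F (H x) + ((l + k : ℤ) : ℝ)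
      rw [hF.1.perInt]
      push_cast
      ring
    have e1 : (fun x => deriv (fun t => lft f (lft g t)) x) = fun x => deriv (fun t => F (H t)) x := by
      funext x
      rw [e]
      exact deriv_add_const _
    have e2 : (fun t => Real.log (deriv (lft g) t)) = fun t => Real.log (deriv H t) := by
      funext t
      rw [hl]
      congr 1
      exact deriv_add_const _
    refine intervalIntegral.integral_congr fun x _ => ?_
    have h1 := congrFun e1 x
    show Real.log (deriv (fun t => lft f (lft g t)) x) * deriv (fun t => Real.log (deriv (lft g) t)) x = _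
    rw [h1, e2]

end

end Pool.Agent.Helper67.DO
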