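import Pool.Agent.Helper59.DO.X1d
import Pool.Agent.Helper26.DO.X1W

/-!
# X1: Euler retraction
-/

namespace Pool.Agent.Helper67.DO

theorem st_X1 (h3 : ST_E3) (h4 : ST_E4) : ST_X1 := st_X1_of h3 h4 st_X1W

end Pool.Agent.Helper67.DO
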