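import Pool.Agent.Helper67.DO.StmtsX
import Pool.Agent.Helper38.DO.Sev

set_option autoImplicit false

/-!
# X1, part a: difference quotients at `0` and the functionals `x1c`, `x1L`
-/

namespace Pool.Agent.Helper67.DO

open Set Filter Topology Metric MeasureTheory
open scoped BigOperators Real

noncomputable section

/-! ### one variable -/

theorem x1_ds_eq (g : ℂ → ℂ) (t : ℂ) : g t = g 0 + t * dslope g 0 t := by
  have h := sub_smul_dslope g 0 t
  rw [sub_zero, smul_eq_mul] at h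
  rw [h]
  ring

theorem x1_ds_ne (g : ℂ → ℂ) {t : ℂ} (ht : t ≠ 0) : dslope g 0 t = (g t - g 0) / t := by
  rw [dslope_of_ne _ ht, slope_def_field, sub_zero]

theorem x1_ds_diff {g : ℂ → ℂ} {O : Set ℂ} (hO : IsOpen O) (h0 : (0 : ℂ) ∈ O) (hg : DifferentiableOn ℂ g O) :
    DifferentiableOn ℂ (dslope g 0) O := (Complex.differentiableOn_dslope (hO.mem_nhds h0)).2 hg

theorem x1_ds_congr {g g' : ℂ → ℂ} {O : Set ℂ} (hO : IsOpen O) (h0 : (0 : ℂ) ∈ O) (hg : EqOn g g' O) :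
    EqOn (dslope g 0) (dslope g' 0) O := by
  intro t ht
  rcases eq_or_ne t 0 with rfl | h
  · rw [dslope_same, dslope_same]
    exact (hg.eventuallyEq_of_mem (hO.mem_nhds h0)).deriv_eq
  · rw [x1_ds_ne g h, x1_ds_ne g' h, hg ht, hg h0]

theorem x1_ds_lin {g g' : ℂ → ℂ} (hg : DifferentiableAt ℂ g 0) (hg' : DifferentiableAt ℂ g' 0) (c t : ℂ) :
    dslope (fun t => c * g t + g' t) 0 t = c * dslope g 0 t + dslope g' 0 t := by
  rcases eq_or_ne t 0 with rfl | h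
  · rw [dslope_same, dslope_same, dslope_same]
    exact ((hg.hasDerivAt.const_mul c).add hg'.hasDerivAt).deriv
  · rw [x1_ds_ne _ h, x1_ds_ne g h, x1_ds_ne g' h]
    ring

theorem x1_ds_mul {g : ℂ → ℂ} (hg : DifferentiableAt ℂ g 0) : dslope (fun t => t * g t) 0 = g := by
  funext t
  rcases eq_or_ne t 0 with rfl | h
  · rw [dslope_same]
    have h1 : HasDerivAt (fun t : ℂ => t * g t) (1 * g 0 + 0 * deriv g 0) 0 :=
      (hasDerivAt_id' (0 : ℂ)).mul hg.hasDerivAt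
    rw [h1.deriv]
    ring
  · rw [x1_ds_ne _ h]
    field_simp
    ring

/-- open sets containing the segment `[0,1]` -/
structure X1O (O : Set ℂ) : Prop where
  op : IsOpen O
  seg : ∀ t : ℝ, t ∈ Icc (0 : ℝ) 1 → (t : ℂ) ∈ O

theorem X1O.zero {O : Set ℂ} (h : X1O O) : (0 : ℂ) ∈ O := by
  have := h.seg 0 ⟨le_rfl, zero_le_one⟩
  simpa using this

theorem X1O.one {O : Set ℂ} (h : X1O O) : (1 : ℂ) ∈ O := by
  have := h.seg 1 ⟨zero_le_one, le_rfl⟩
  simpa using this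

theorem X1O.diff0 {O : Set ℂ} (h : X1O O) {g : ℂ → ℂ} (hg : DifferentiableOn ℂ g O) : DifferentiableAt ℂ g 0 :=
  hg.differentiableAt (h.op.mem_nhds h.zero)

theorem X1O.cont {O : Set ℂ} (h : X1O O) {g : ℂ → ℂ} (hg : DifferentiableOn ℂ g O) :
    ContinuousOn (fun t : ℝ => g t) (uIcc 0 1) := by
  rw [uIcc_of_le zero_le_one]
  exact hg.continuousOn.comp Complex.continuous_ofReal.continuousOn fun t ht => h.seg t ht

/-- Taylor coefficients at `0` -/
def x1c : ℕ → (ℂ → ℂ) → ℂ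
  | 0, g => g 0
  | (r + 1), g => x1c r (dslope g 0)

/-- finite part of `∫_0^1 t^(-r-1) g(t) dt` -/
def x1L : ℕ → (ℂ → ℂ) → ℂ
  | 0, g => ∫ t in (0 : ℝ)..1, dslope g 0 (t : ℂ)
  | (r + 1), g => -g 0 / ((r : ℂ) + 1) + x1L r (dslope g 0)

/-- good functionals -/
structure X1G (Λ : (ℂ → ℂ) → ℂ) : Prop where
  congr : ∀ O, X1O O → ∀ g g' : ℂ → ℂ, EqOn g g' O → Λ g = Λ g'
  lin : ∀ O, X1O O → ∀ (g g' : ℂ → ℂ) (c : ℂ), DifferentiableOn ℂ g O → DifferentiableOn ℂ g' O →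
    Λ (fun t => c * g t + g' t) = c * Λ g + Λ g'

theorem X1G.comp {Λ : (ℂ → ℂ) → ℂ} (h : X1G Λ) : X1G (fun g => Λ (dslope g 0)) where
  congr O hO g g' e := h.congr O hO _ _ (x1_ds_congr hO.op hO.zero e)
  lin O hO g g' c hg hg' := by
    rw [← h.lin O hO _ _ c (x1_ds_diff hO.op hO.zero hg) (x1_ds_diff hO.op hO.zero hg')]
    exact h.congr O hO _ _ fun t _ => x1_ds_lin (hO.diff0 hg) (hO.diff0 hg') c t

theorem X1G.ev : X1G (fun g => g 0) where
  congr _ hO _ _ e := e hO.zero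
  lin _ _ _ _ _ _ _ := rfl

theorem X1G.int : X1G (fun g => ∫ t in (0 : ℝ)..1, g (t : ℂ)) where
  congr O hO g g' e := by
    refine intervalIntegral.integral_congr fun t ht => ?_
    rw [uIcc_of_le zero_le_one] at ht
    exact e (hO.seg t ht)
  lin O hO g g' c hg hg' := by
    rw [intervalIntegral.integral_add, intervalIntegral.integral_const_mul]
    · exact ((hO.cont hg).intervalIntegrable).const_mul c
    · exact (hO.cont hg').intervalIntegrable

theorem X1G.add {Λ Λ' : (ℂ → ℂ) → ℂ} (h : X1G Λ) (h' : X1G Λ') (c : ℂ) : X1G (fun g => c * Λ g + Λ' g) where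
  congr O hO g g' e := by rw [h.congr O hO _ _ e, h'.congr O hO _ _ e]
  lin O hO g g' c' hg hg' := by
    rw [h.lin O hO _ _ c' hg hg', h'.lin O hO _ _ c' hg hg']
    ring

theorem X1G.c (r : ℕ) : X1G (x1c r) := by
  induction r with
  | zero => exact X1G.ev
  | succ r ih => exact ih.comp

theorem x1L_succ (r : ℕ) : x1L (r + 1) = fun g => (-1 / ((r : ℂ) + 1)) * g 0 + x1L r (dslope g 0) := by
  funext g
  show -g 0 / ((r : ℂ) + 1) + x1L r (dslope g 0) = _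
  ring

theorem X1G.L (r : ℕ) : X1G (x1L r) := by
  induction r with
  | zero => exact X1G.int.comp
  | succ r ih =>
    rw [x1L_succ]
    exact X1G.ev.add ih.comp _

theorem X1G.zero {Λ : (ℂ → ℂ) → ℂ} (h : X1G Λ) : Λ (fun _ => 0) = 0 := by
  have := h.lin univ ⟨isOpen_univ, fun _ _ => mem_univ _⟩ (fun _ => 0) (fun _ => 0) 1 (differentiableOn_const 0)
    (differentiableOn_const 0)
  simp only [one_mul, add_zero] at this
  linear_combination -this

theorem X1G.smul {Λ : (ℂ → ℂ) → ℂ} (h : X1G Λ) {O : Set ℂ} (hO : X1O O) {g : ℂ → ℂ} (hg : DifferentiableOn ℂ g O)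
    (c : ℂ) : Λ (fun t => c * g t) = c * Λ g := by
  have := h.lin O hO g (fun _ => 0) c hg (differentiableOn_const 0)
  rw [h.zero] at this
  simpa using this

theorem X1G.sum {Λ : (ℂ → ℂ) → ℂ} (h : X1G Λ) {O : Set ℂ} (hO : X1O O) {ι : Type} (s : Finset ι) (g : ι → ℂ → ℂ)
    (hg : ∀ i ∈ s, DifferentiableOn ℂ (g i) O) (c : ι → ℂ) :
    Λ (fun t => ∑ i ∈ s, c i * g i t) = ∑ i ∈ s, c i * Λ (g i) := by
  classical
  induction s using Finset.induction_on with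
  | empty =>
    simp only [Finset.sum_empty]
    exact h.zero
  | insert a s ha ih =>
    rw [Finset.sum_insert ha, ← ih fun i hi => hg i (Finset.mem_insert_of_mem hi)]
    rw [← h.lin O hO (g a) (fun t => ∑ i ∈ s, c i * g i t) (c a) (hg a (Finset.mem_insert_self _ _))
      (DifferentiableOn.fun_sum fun i hi => (hg i (Finset.mem_insert_of_mem hi)).const_mul _)]
    congr 1
    funext t
    rw [Finset.sum_insert ha]

theorem x1c_mul {g : ℂ → ℂ} (hg : DifferentiableAt ℂ g 0) (r : ℕ) : x1c (r + 1) (fun t => t * g t) = x1c r g := by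
  show x1c r (dslope (fun t => t * g t) 0) = _
  rw [x1_ds_mul hg]

theorem x1c_mul0 (g : ℂ → ℂ) : x1c 0 (fun t => t * g t) = 0 := by
  show (0 : ℂ) * g 0 = 0
  rw [zero_mul]

theorem x1L_mul {g : ℂ → ℂ} (hg : DifferentiableAt ℂ g 0) (r : ℕ) : x1L (r + 1) (fun t => t * g t) = x1L r g := by
  show -(0 * g 0) / ((r : ℂ) + 1) + x1L r (dslope (fun t => t * g t) 0) = _
  rw [x1_ds_mul hg]
  ring

/-- derivative of `g` in terms of its difference quotient -/
theorem x1_deriv_eq {g : ℂ → ℂ} {O : Set ℂ} (hO : IsOpen O) (h0 : (0 : ℂ) ∈ O) (hg : DifferentiableOn ℂ g O) {t : ℂ}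
    (ht : t ∈ O) : deriv g t = dslope g 0 t + t * deriv (dslope g 0) t := by
  have hd : DifferentiableAt ℂ (dslope g 0) t := (x1_ds_diff hO h0 hg).differentiableAt (hO.mem_nhds ht)
  have h1 : HasDerivAt (fun t => g 0 + t * dslope g 0 t) (1 * dslope g 0 t + t * deriv (dslope g 0) t) t :=
    ((hasDerivAt_id' t).mul hd.hasDerivAt).const_add _
  have h2 : (fun t => g 0 + t * dslope g 0 t) = g := funext fun t => (x1_ds_eq g t).symm
  rw [h2] at h1
  rw [h1.deriv, one_mul]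

theorem x1_euler (r : ℕ) : ∀ {g : ℂ → ℂ} {O : Set ℂ}, X1O O → DifferentiableOn ℂ g O →
    x1L r (fun t => t * deriv g t) - r * x1L r g = g 1 - x1c r g := by
  induction r with
  | zero =>
    intro g O hO hg
    have hd : DifferentiableOn ℂ (deriv g) O := hg.deriv hO.op
    have e1 : x1L 0 (fun t => t * deriv g t) = ∫ t in (0 : ℝ)..1, deriv g (t : ℂ) := by
      show ∫ t in (0 : ℝ)..1, dslope (fun t => t * deriv g t) 0 (t : ℂ) = _
      rw [x1_ds_mul (hO.diff0 hd)]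
    have e2 : ∫ t in (0 : ℝ)..1, deriv g (t : ℂ) = g 1 - g 0 := by
      have := intervalIntegral.integral_eq_sub_of_hasDerivAt (f := fun t : ℝ => g t) (f' := fun t : ℝ => deriv g t)
        (a := 0) (b := 1) (fun t ht => ?_) (hO.cont hd).intervalIntegrable
      · simpa using this
      · rw [uIcc_of_le zero_le_one] at ht
        exact (hg.differentiableAt (hO.op.mem_nhds (hO.seg t ht))).hasDerivAt.comp_ofReal
    rw [e1, e2]
    simp [x1c]
  | succ r ih =>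
    intro g O hO hg
    have hd : DifferentiableOn ℂ (deriv g) O := hg.deriv hO.op
    have hs : DifferentiableOn ℂ (dslope g 0) O := x1_ds_diff hO.op hO.zero hg
    have hsd : DifferentiableOn ℂ (deriv (dslope g 0)) O := hs.deriv hO.op
    have hsm : DifferentiableOn ℂ (fun t => t * deriv (dslope g 0) t) O := differentiableOn_id.mul hsd
    rw [x1L_mul (hO.diff0 hd)]
    have e1 : x1L r (deriv g) = x1L r (dslope g 0) + x1L r (fun t => t * deriv (dslope g 0) t) := by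
      have e := (X1G.L r).lin O hO (dslope g 0) _ 1 hs hsm
      rw [one_mul] at e
      rw [← e]
      refine (X1G.L r).congr O hO _ _ fun t ht => ?_
      rw [x1_deriv_eq hO.op hO.zero hg ht, one_mul]
    have e2 := ih hO hs
    have e3 : dslope g 0 1 = g 1 - g 0 := by
      have := x1_ds_eq g 1
      linear_combination -this
    have e4 : x1L (r + 1) g = -g 0 / ((r : ℂ) + 1) + x1L r (dslope g 0) := rfl
    have e5 : x1c (r + 1) g = x1c r (dslope g 0) := rfl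
    have hr : (r : ℂ) + 1 ≠ 0 := Nat.cast_add_one_ne_zero r
    rw [e1, e4, e5]
    rw [e3] at e2
    push_cast
    field_simp
    linear_combination e2

/-- bound for the difference quotient -/
theorem x1_ds_bound {g : ℂ → ℂ} {O : Set ℂ} (hg : DifferentiableOn ℂ g O) {ρ B : ℝ} (hρ : 0 < ρ)
    (hb : ball (0 : ℂ) ρ ⊆ O) (h1 : ∀ t ∈ ball (0 : ℂ) ρ, ‖g t‖ ≤ B) (h2 : ∀ t : ℝ, t ∈ Icc (0 : ℝ) 1 → ‖g t‖ ≤ B) :
    (∀ t ∈ ball (0 : ℂ) ρ, ‖dslope g 0 t‖ ≤ 2 / ρ * B) ∧ (∀ t : ℝ, t ∈ Icc (0 : ℝ) 1 → ‖dslope g 0 t‖ ≤ 2 / ρ * B) := by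
  have h0 : (0 : ℂ) ∈ ball (0 : ℂ) ρ := mem_ball_self hρ
  have hB : 0 ≤ B := (norm_nonneg _).trans (h1 0 h0)
  have k1 : ∀ t ∈ ball (0 : ℂ) ρ, ‖dslope g 0 t‖ ≤ 2 / ρ * B := by
    intro t ht
    have := Complex.norm_dslope_le_div_of_mapsTo_ball (hg.mono hb) (R₂ := 2 * B) (fun s hs => ?_) ht
    · calc _ ≤ _ := this
        _ = _ := by ring
    · rw [mem_closedBall, dist_eq_norm]
      calc ‖g s - g 0‖ ≤ ‖g s‖ + ‖g 0‖ := norm_sub_le _ _
        _ ≤ 2 * B := by linarith [h1 s hs, h1 0 h0]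
  refine ⟨k1, fun t ht => ?_⟩
  by_cases hlt : t < ρ
  · apply k1
    rw [mem_ball, dist_zero_right, Complex.norm_real, Real.norm_eq_abs, abs_of_nonneg ht.1]
    exact hlt
  · rw [not_lt] at hlt
    have ht0 : (t : ℂ) ≠ 0 := by
      rw [Complex.ofReal_ne_zero]
      linarith
    rw [x1_ds_ne _ ht0, norm_div, Complex.norm_real, Real.norm_eq_abs, abs_of_nonneg ht.1,
      div_le_iff₀ (hρ.trans_le hlt)]
    have h3 : ‖g t - g 0‖ ≤ 2 * B := (norm_sub_le _ _).trans (by linarith [h2 t ht, h1 0 h0])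
    calc _ ≤ 2 * B := h3
      _ = 2 / ρ * B * ρ := by field_simp
      _ ≤ 2 / ρ * B * t := by
        apply mul_le_mul_of_nonneg_left hlt
        positivity

theorem x1L_bound (r : ℕ) {ρ : ℝ} (hρ : 0 < ρ) : ∃ K : ℝ, 0 ≤ K ∧ ∀ (g : ℂ → ℂ) (O : Set ℂ), X1O O →
    DifferentiableOn ℂ g O → ball (0 : ℂ) ρ ⊆ O → ∀ B : ℝ, (∀ t ∈ ball (0 : ℂ) ρ, ‖g t‖ ≤ B) →
    (∀ t : ℝ, t ∈ Icc (0 : ℝ) 1 → ‖g t‖ ≤ B) → ‖x1L r g‖ ≤ K * B := by
  induction r with
  | zero =>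
    refine ⟨2 / ρ, by positivity, fun g O hO hg hb B h1 h2 => ?_⟩
    have h3 := (x1_ds_bound hg hρ hb h1 h2).2
    have h4 := intervalIntegral.norm_integral_le_of_norm_le_const (f := fun t : ℝ => dslope g 0 (t : ℂ)) (a := 0)
      (b := 1) (C := 2 / ρ * B) (fun t ht => by
        rw [uIoc_of_le zero_le_one] at ht
        exact h3 t ⟨ht.1.le, ht.2⟩)
    show ‖∫ t in (0 : ℝ)..1, dslope g 0 (t : ℂ)‖ ≤ _
    simpa using h4
  | succ r ih =>
    obtain ⟨K, hK, ih⟩ := ih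
    refine ⟨1 + K * (2 / ρ), by positivity, fun g O hO hg hb B h1 h2 => ?_⟩
    obtain ⟨h3, h4⟩ := x1_ds_bound hg hρ hb h1 h2
    have h5 := ih (dslope g 0) O hO (x1_ds_diff hO.op hO.zero hg) hb (2 / ρ * B) h3 h4
    have h6 : ‖-g 0 / ((r : ℂ) + 1)‖ ≤ B := by
      rw [norm_div, norm_neg]
      have h7 : ‖((r : ℂ) + 1)‖ = (r : ℝ) + 1 := by
        have : ((r : ℂ) + 1) = (((r : ℝ) + 1 : ℝ) : ℂ) := by push_cast; rfl
        rw [this, Complex.norm_real, Real.norm_eq_abs, abs_of_nonneg (by positivity)]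
      rw [h7, div_le_iff₀ (by positivity)]
      have h8 := h1 0 (mem_ball_self hρ)
      have hB : 0 ≤ B := (norm_nonneg _).trans h8
      nlinarith [Nat.cast_nonneg (α := ℝ) r]
    calc ‖-g 0 / ((r : ℂ) + 1) + x1L r (dslope g 0)‖ ≤ B + K * (2 / ρ * B) :=
          (norm_add_le _ _).trans (add_le_add h6 h5)
      _ = _ := by ring

/-! ### parameters -/

/-- domains in `E × ℂ`: star shaped in the second variable, containing `W × [0,1]` -/
structure X1D {E : Type} [NormedAddCommGroup E] [NormedSpace ℂ E] (W : Set E) (Ω : Set (E × ℂ)) : Prop where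
  opW : IsOpen W
  op : IsOpen Ω
  star : ∀ p ∈ Ω, ∀ s : ℝ, s ∈ Icc (0 : ℝ) 1 → (p.1, (s : ℂ) * p.2) ∈ Ω
  seg : ∀ z ∈ W, ∀ t : ℝ, t ∈ Icc (0 : ℝ) 1 → (z, (t : ℂ)) ∈ Ω

theorem x1_slice_op {E : Type} [NormedAddCommGroup E] {Ω : Set (E × ℂ)} (hΩ : IsOpen Ω) (z : E) :
    IsOpen {t : ℂ | (z, t) ∈ Ω} := hΩ.preimage (by fun_prop : Continuous fun t : ℂ => (z, t))

theorem X1D.slice {E : Type} [NormedAddCommGroup E] [NormedSpace ℂ E] {W : Set E} {Ω : Set (E × ℂ)} (h : X1D W Ω)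
    {z : E} (hz : z ∈ W) : X1O {t : ℂ | (z, t) ∈ Ω} :=
  ⟨x1_slice_op h.op z, fun t ht => h.seg z hz t ht⟩

theorem x1_slice_diff {E : Type} [NormedAddCommGroup E] [NormedSpace ℂ E] {Ω : Set (E × ℂ)} {f : E × ℂ → ℂ}
    (hf : DifferentiableOn ℂ f Ω) (z : E) : DifferentiableOn ℂ (fun t => f (z, t)) {t : ℂ | (z, t) ∈ Ω} :=
  hf.comp (f := fun t : ℂ => (z, t)) (by fun_prop) fun _ ht => ht

theorem x1_slice_deriv {E : Type} [NormedAddCommGroup E] [NormedSpace ℂ E] {Ω : Set (E × ℂ)} (hΩ : IsOpen Ω)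
    {f : E × ℂ → ℂ} (hf : DifferentiableOn ℂ f Ω) {z : E} {t : ℂ} (h : (z, t) ∈ Ω) :
    HasDerivAt (fun t => f (z, t)) (fderiv ℂ f (z, t) (0, 1)) t := by
  have h1 : HasFDerivAt f (fderiv ℂ f (z, t)) (z, t) := (hf.differentiableAt (hΩ.mem_nhds h)).hasFDerivAt
  have h2 : HasDerivAt (fun t : ℂ => (z, t)) ((0 : E), (1 : ℂ)) t := (hasDerivAt_const t z).prodMk (hasDerivAt_id' t)
  exact h1.comp_hasDerivAt t h2

theorem x1_slice_fderiv {E : Type} [NormedAddCommGroup E] [NormedSpace ℂ E] {Ω : Set (E × ℂ)} (hΩ : IsOpen Ω)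
    {f : E × ℂ → ℂ} (hf : DifferentiableOn ℂ f Ω) {z : E} {t : ℂ} (h : (z, t) ∈ Ω) :
    HasFDerivAt (fun z => f (z, t)) ((fderiv ℂ f (z, t)).comp (ContinuousLinearMap.inl ℂ E ℂ)) z := by
  have h1 : HasFDerivAt f (fderiv ℂ f (z, t)) (z, t) := (hf.differentiableAt (hΩ.mem_nhds h)).hasFDerivAt
  exact h1.comp z (hasFDerivAt_prodMk_left z t)

/-- the difference quotient as an integral -/
theorem x1_ds_int {E : Type} [NormedAddCommGroup E] [NormedSpace ℂ E] [ProperSpace E] {Ω : Set (E × ℂ)} (hΩ : IsOpen Ω)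
    (hs : ∀ p ∈ Ω, ∀ s : ℝ, s ∈ Icc (0 : ℝ) 1 → (p.1, (s : ℂ) * p.2) ∈ Ω)
    {f : E × ℂ → ℂ} (hf : DifferentiableOn ℂ f Ω) {z : E} {t : ℂ} (h : (z, t) ∈ Ω) :
    dslope (fun t => f (z, t)) 0 t = ∫ s in (0 : ℝ)..1, fderiv ℂ f (z, (s : ℂ) * t) (0, 1) := by
  have hd : DifferentiableOn ℂ (fun p => fderiv ℂ f p (0, 1)) Ω := Pool.Agent.Helper38.DO.sev_fderiv_apply hΩ hf _
  rcases eq_or_ne t 0 with rfl | h0
  · rw [dslope_same, (x1_slice_deriv hΩ hf h).deriv]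
    simp
  · rw [x1_ds_ne _ h0]
    have h1 : ∀ s ∈ uIcc (0 : ℝ) 1, HasDerivAt (fun s : ℝ => f (z, (s : ℂ) * t))
        (fderiv ℂ f (z, (s : ℂ) * t) (0, 1) * t) s := by
      intro s hs'
      rw [uIcc_of_le zero_le_one] at hs'
      have h2 := x1_slice_deriv hΩ hf (hs _ h s hs')
      have h3 : HasDerivAt (fun s : ℂ => s * t) t (s : ℂ) := by simpa using (hasDerivAt_id' (s : ℂ)).mul_const t
      have h4 : HasDerivAt (fun s : ℂ => f (z, s * t)) (fderiv ℂ f (z, (s : ℂ) * t) (0, 1) * t) (s : ℂ) :=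
        HasDerivAt.comp (h₂ := fun t => f (z, t)) (h := fun s : ℂ => s * t) (s : ℂ) h2 h3
      exact h4.comp_ofReal
    have hc : ContinuousOn (fun s : ℝ => fderiv ℂ f (z, (s : ℂ) * t) (0, 1)) (uIcc (0 : ℝ) 1) := by
      refine hd.continuousOn.comp (f := fun s : ℝ => (z, (s : ℂ) * t)) (by fun_prop) fun s hs' => ?_
      rw [uIcc_of_le zero_le_one] at hs'
      exact hs _ h s hs'
    have h2 := intervalIntegral.integral_eq_sub_of_hasDerivAt h1 (hc.mul continuousOn_const).intervalIntegrable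
    rw [intervalIntegral.integral_mul_const] at h2
    rw [div_eq_iff h0, h2]
    simp

theorem x1_ds_hol {E : Type} [NormedAddCommGroup E] [NormedSpace ℂ E] [ProperSpace E] {Ω : Set (E × ℂ)} (hΩ : IsOpen Ω)
    (hs : ∀ p ∈ Ω, ∀ s : ℝ, s ∈ Icc (0 : ℝ) 1 → (p.1, (s : ℂ) * p.2) ∈ Ω)
    {f : E × ℂ → ℂ} (hf : DifferentiableOn ℂ f Ω) :
    DifferentiableOn ℂ (fun p : E × ℂ => dslope (fun t => f (p.1, t)) 0 p.2) Ω := by
  have hd : DifferentiableOn ℂ (fun p => fderiv ℂ f p (0, 1)) Ω := Pool.Agent.Helper38.DO.sev_fderiv_apply hΩ hf _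
  have h1 : DifferentiableOn ℂ (fun p : E × ℂ => ∫ s in (0 : ℝ)..1, fderiv ℂ f (p.1, (s : ℂ) * p.2) (0, 1)) Ω := by
    refine Pool.Agent.Helper38.DO.sev_param_differentiableOn hΩ
      (f := fun (p : E × ℂ) (s : ℝ) => fderiv ℂ f (p.1, (s : ℂ) * p.2) (0, 1)) ?_ ?_
    · refine hd.continuousOn.comp (f := fun x : (E × ℂ) × ℝ => (x.1.1, (x.2 : ℂ) * x.1.2)) (by fun_prop) ?_
      rintro ⟨p, s⟩ ⟨hp, hs'⟩
      rw [uIcc_of_le zero_le_one] at hs'
      exact hs p hp s hs'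
    · intro s hs'
      rw [uIcc_of_le zero_le_one] at hs'
      refine hd.comp (f := fun p : E × ℂ => (p.1, (s : ℂ) * p.2)) ?_ fun p hp => hs p hp s hs'
      fun_prop
  exact h1.congr fun p hp => x1_ds_int hΩ hs hf (z := p.1) (t := p.2) hp

/-- derivatives with respect to the parameter commute with the difference quotient -/
theorem x1_ds_fderiv {E : Type} [NormedAddCommGroup E] [NormedSpace ℂ E] [ProperSpace E] {Ω : Set (E × ℂ)} (hΩ : IsOpen Ω)
    (hs : ∀ p ∈ Ω, ∀ s : ℝ, s ∈ Icc (0 : ℝ) 1 → (p.1, (s : ℂ) * p.2) ∈ Ω)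
    {f : E × ℂ → ℂ} (hf : DifferentiableOn ℂ f Ω) {z : E} {t : ℂ} (h : (z, t) ∈ Ω) (v : E) :
    fderiv ℂ (fun z => dslope (fun t => f (z, t)) 0 t) z v = dslope (fun t => fderiv ℂ (fun z => f (z, t)) z v) 0 t := by
  have h0 : (z, (0 : ℂ)) ∈ Ω := by
    have := hs _ h 0 ⟨le_rfl, zero_le_one⟩
    simpa using this
  have hS := x1_ds_hol hΩ hs hf
  -- the equality for nonzero `t`
  have key : ∀ t : ℂ, t ≠ 0 → (z, t) ∈ Ω → fderiv ℂ (fun z => dslope (fun t => f (z, t)) 0 t) z v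
      = dslope (fun t => fderiv ℂ (fun z => f (z, t)) z v) 0 t := by
    intro t ht htΩ
    rw [x1_ds_ne _ ht]
    have e : (fun z => dslope (fun t => f (z, t)) 0 t) = fun z => t⁻¹ * (f (z, t) - f (z, 0)) := by
      funext z
      rw [x1_ds_ne _ ht]
      ring
    rw [e]
    have h1 := x1_slice_fderiv hΩ hf htΩ
    have h2 := x1_slice_fderiv hΩ hf h0
    have h3 := ((h1.sub h2).const_mul t⁻¹).fderiv
    have h3' : fderiv ℂ (fun z => t⁻¹ * (f (z, t) - f (z, 0))) z = _ := h3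
    rw [h3', h1.fderiv, h2.fderiv]
    simp only [smul_apply, sub_apply, smul_eq_mul]
    ring
  rcases eq_or_ne t 0 with rfl | ht
  · -- both sides are continuous in `t`
    have hv : DifferentiableOn ℂ (fun p => fderiv ℂ f p (v, 0)) Ω := Pool.Agent.Helper38.DO.sev_fderiv_apply hΩ hf _
    have hSv : DifferentiableOn ℂ (fun p : E × ℂ => fderiv ℂ (fun p : E × ℂ => dslope (fun t => f (p.1, t)) 0 p.2) p (v, 0)) Ω :=
      Pool.Agent.Helper38.DO.sev_fderiv_apply hΩ hS _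
    have hO : IsOpen {t : ℂ | (z, t) ∈ Ω} := x1_slice_op hΩ z
    have e1 : ∀ t : ℂ, (z, t) ∈ Ω → fderiv ℂ (fun z => dslope (fun t => f (z, t)) 0 t) z v =
        fderiv ℂ (fun p : E × ℂ => dslope (fun t => f (p.1, t)) 0 p.2) (z, t) (v, 0) := by
      intro t ht
      have := (x1_slice_fderiv hΩ hS ht).fderiv
      rw [this]
      simp
    have e2 : ∀ t : ℂ, (z, t) ∈ Ω → fderiv ℂ (fun z => f (z, t)) z v = fderiv ℂ f (z, t) (v, 0) := by
      intro t ht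
      rw [(x1_slice_fderiv hΩ hf ht).fderiv]
      simp
    have c1 : ContinuousAt (fun t => fderiv ℂ (fun z => dslope (fun t => f (z, t)) 0 t) z v) 0 := by
      have h1 : ContinuousOn (fun t : ℂ => fderiv ℂ (fun p : E × ℂ => dslope (fun t => f (p.1, t)) 0 p.2) (z, t) (v, 0))
          {t : ℂ | (z, t) ∈ Ω} := (x1_slice_diff hSv z).continuousOn
      exact ((h1.congr fun t ht => e1 t ht).continuousAt (hO.mem_nhds h0))
    have d2 : DifferentiableOn ℂ (fun t => fderiv ℂ (fun z => f (z, t)) z v) {t : ℂ | (z, t) ∈ Ω} :=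
      (x1_slice_diff hv z).congr fun t ht => e2 t ht
    have c2 : ContinuousAt (dslope (fun t => fderiv ℂ (fun z => f (z, t)) z v) 0) 0 :=
      (x1_ds_diff hO h0 d2).continuousOn.continuousAt (hO.mem_nhds h0)
    have t1 : Tendsto (fun t => fderiv ℂ (fun z => dslope (fun t => f (z, t)) 0 t) z v) (𝓝[≠] 0)
        (𝓝 (fderiv ℂ (fun z => dslope (fun t => f (z, t)) 0 0) z v)) := c1.tendsto.mono_left nhdsWithin_le_nhds
    have t2 := c2.tendsto.mono_left (nhdsWithin_le_nhds (s := {(0 : ℂ)}ᶜ))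
    refine tendsto_nhds_unique (t1.congr' ?_) t2
    filter_upwards [self_mem_nhdsWithin, nhdsWithin_le_nhds (hO.mem_nhds h0)] with t ht htΩ
    exact key t ht htΩ
  · exact key t ht h

/-- functionals compatible with parameters -/
def X1P (E : Type) [NormedAddCommGroup E] [NormedSpace ℂ E] (Λ : (ℂ → ℂ) → ℂ) : Prop :=
  ∀ (W : Set E) (Ω : Set (E × ℂ)) (f : E × ℂ → ℂ), X1D W Ω → DifferentiableOn ℂ f Ω →
    DifferentiableOn ℂ (fun z => Λ (fun t => f (z, t))) W ∧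
    ∀ z ∈ W, ∀ v, fderiv ℂ (fun z => Λ (fun t => f (z, t))) z v = Λ (fun t => fderiv ℂ (fun z => f (z, t)) z v)

theorem X1P.comp {E : Type} [NormedAddCommGroup E] [NormedSpace ℂ E] [ProperSpace E] {Λ : (ℂ → ℂ) → ℂ} (hG : X1G Λ)
    (h : X1P E Λ) : X1P E (fun g => Λ (dslope g 0)) := by
  intro W Ω f hD hf
  obtain ⟨h1, h2⟩ := h W Ω _ hD (x1_ds_hol hD.op hD.star hf)
  have e : ∀ z : E, (fun t : ℂ => dslope (fun t => f (z, t)) 0 t) = dslope (fun t => f (z, t)) 0 := fun z => rfl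
  refine ⟨h1, fun z hz v => ?_⟩
  refine (h2 z hz v).trans ?_
  exact hG.congr _ (hD.slice hz) _ _ fun t ht => x1_ds_fderiv hD.op hD.star hf ht v

theorem X1P.ev {E : Type} [NormedAddCommGroup E] [NormedSpace ℂ E] : X1P E (fun g => g 0) := by
  intro W Ω f hD hf
  refine ⟨?_, fun z hz v => rfl⟩
  refine hf.comp (f := fun z : E => (z, (0 : ℂ))) (by fun_prop) fun z hz => ?_
  have := hD.seg z hz 0 ⟨le_rfl, zero_le_one⟩
  simpa using this

theorem X1P.int {E : Type} [NormedAddCommGroup E] [NormedSpace ℂ E] [ProperSpace E] :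
    X1P E (fun g => ∫ t in (0 : ℝ)..1, g (t : ℂ)) := by
  intro W Ω f hD hf
  have hc : ContinuousOn (fun p : E × ℝ => f (p.1, (p.2 : ℂ))) (W ×ˢ uIcc (0 : ℝ) 1) := by
    refine hf.continuousOn.comp (f := fun p : E × ℝ => (p.1, (p.2 : ℂ))) (by fun_prop) ?_
    rintro ⟨z, t⟩ ⟨hz, ht⟩
    rw [uIcc_of_le zero_le_one] at ht
    exact hD.seg z hz t ht
  have hd : ∀ t ∈ uIcc (0 : ℝ) 1, DifferentiableOn ℂ (fun z => f (z, (t : ℂ))) W := by
    intro t ht
    rw [uIcc_of_le zero_le_one] at ht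
    exact hf.comp (f := fun z : E => (z, (t : ℂ))) (by fun_prop) fun z hz => hD.seg z hz t ht
  refine ⟨Pool.Agent.Helper38.DO.sev_param_differentiableOn hD.opW (f := fun z (t : ℝ) => f (z, (t : ℂ))) hc hd,
    fun z hz v => ?_⟩
  obtain ⟨k1, k2⟩ := Pool.Agent.Helper38.DO.sev_param hD.opW (f := fun z (t : ℝ) => f (z, (t : ℂ))) hc hd hz
  show fderiv ℂ (fun z => ∫ t in (0 : ℝ)..1, f (z, (t : ℂ))) z v = _
  rw [k2.fderiv, ContinuousLinearMap.intervalIntegral_apply k1.intervalIntegrable]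

theorem X1P.add {E : Type} [NormedAddCommGroup E] [NormedSpace ℂ E] {Λ Λ' : (ℂ → ℂ) → ℂ} (h : X1P E Λ) (h' : X1P E Λ')
    (c : ℂ) : X1P E (fun g => c * Λ g + Λ' g) := by
  intro W Ω f hD hf
  obtain ⟨h1, h2⟩ := h W Ω f hD hf
  obtain ⟨h1', h2'⟩ := h' W Ω f hD hf
  refine ⟨(h1.const_mul c).add h1', fun z hz v => ?_⟩
  have a1 := (h1.differentiableAt (hD.opW.mem_nhds hz)).hasFDerivAt
  have a2 := (h1'.differentiableAt (hD.opW.mem_nhds hz)).hasFDerivAt
  have a3 := ((a1.const_mul c).add a2).fderiv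
  have a3' : fderiv ℂ (fun z => c * Λ (fun t => f (z, t)) + Λ' (fun t => f (z, t))) z = _ := a3
  rw [a3']
  simp only [add_apply, smul_apply, smul_eq_mul]
  rw [h2 z hz v, h2' z hz v]

theorem X1P.c {E : Type} [NormedAddCommGroup E] [NormedSpace ℂ E] [ProperSpace E] (r : ℕ) : X1P E (x1c r) := by
  induction r with
  | zero => exact X1P.ev
  | succ r ih => exact ih.comp (X1G.c r)

theorem X1P.L {E : Type} [NormedAddCommGroup E] [NormedSpace ℂ E] [ProperSpace E] (r : ℕ) : X1P E (x1L r) := by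
  induction r with
  | zero => exact X1P.int.comp X1G.int
  | succ r ih =>
    rw [x1L_succ]
    exact X1P.ev.add (ih.comp (X1G.L r)) _

/-- one complex parameter -/
theorem X1P.deriv {Λ : (ℂ → ℂ) → ℂ} (h : X1P ℂ Λ) {W : Set ℂ} {Ω : Set (ℂ × ℂ)} {f : ℂ × ℂ → ℂ} (hD : X1D W Ω)
    (hf : DifferentiableOn ℂ f Ω) {τ : ℂ} (hτ : τ ∈ W) :
    deriv (fun τ => Λ (fun t => f (τ, t))) τ = Λ (fun t => deriv (fun τ => f (τ, t)) τ) := by
  have := (h W Ω f hD hf).2 τ hτ 1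
  rw [← fderiv_apply_one_eq_deriv, this]
  congr 1

end

end Pool.Agent.Helper67.DO
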