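import Pool.Agent.Helper59.DO.X1a
import Pool.Agent.Helper67.DO.BaseE

set_option autoImplicit false

/-!
# X1, part b: geometry of the retraction
-/

namespace Pool.Agent.Helper67.DO

open Set Filter Topology Metric MeasureTheory
open scoped BigOperators Real

noncomputable section

/-- the hypotheses of X1 -/
structure X1S (b0 y e0 w h : ℝ) (V : Set ℂ) : Prop where
  by0 : b0 < y
  ye : y < e0
  e1 : e0 ≤ b0 + 1
  w0 : 0 ≤ w
  h0 : 0 < h
  bw : b0 + w < y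
  ew : y < e0 - w
  opV : IsOpen V
  perV : Per V
  disj : ∀ z ∈ V, ¬ InR b0 e0 z

/-- the fundamental rectangle -/
def x1Q (b0 e0 w h : ℝ) : Set ℂ := {x | |x.im| < h ∧ b0 + w < x.re ∧ x.re < e0 - w}

/-- the domain -/
def x1U (b0 e0 w h : ℝ) (V : Set ℂ) : Set ℂ := V ∪ RR b0 e0 w h

theorem x1Q_open (b0 e0 w h : ℝ) : IsOpen (x1Q b0 e0 w h) := by
  have : x1Q b0 e0 w h = {x : ℂ | |x.im| < h} ∩ ({x : ℂ | b0 + w < x.re} ∩ {x : ℂ | x.re < e0 - w}) := rfl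
  rw [this]
  exact (isOpen_lt (continuous_abs.comp Complex.continuous_im) continuous_const).inter
    ((isOpen_lt continuous_const Complex.continuous_re).inter (isOpen_lt Complex.continuous_re continuous_const))

theorem x1Q_sub_RR (b0 e0 w h : ℝ) : x1Q b0 e0 w h ⊆ RR b0 e0 w h := by
  rintro x ⟨h1, h2, h3⟩
  exact ⟨h1, 0, by simpa using h2, by simpa using h3⟩

theorem x1_InR_add (b0 e0 : ℝ) (z : ℂ) : InR b0 e0 (z + 1) ↔ InR b0 e0 z := by
  constructor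
  · rintro ⟨k, h1, h2⟩
    refine ⟨k - 1, ?_, ?_⟩ <;> simp only [Complex.add_re, Complex.one_re] at h1 h2 <;> push_cast <;> linarith
  · rintro ⟨k, h1, h2⟩
    refine ⟨k + 1, ?_, ?_⟩ <;> simp only [Complex.add_re, Complex.one_re] <;> push_cast <;> linarith

theorem x1_RR_InR {b0 e0 w h : ℝ} (hw : 0 ≤ w) {z : ℂ} (hz : z ∈ RR b0 e0 w h) : InR b0 e0 z := by
  obtain ⟨_, k, h1, h2⟩ := hz
  exact ⟨k, by linarith, by linarith⟩

theorem x1_k_unique {b0 e0 : ℝ} (he : e0 ≤ b0 + 1) {x : ℝ} {k l : ℤ} (h1 : b0 < x - k) (h2 : x - k < e0)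
    (h3 : b0 < x - l) (h4 : x - l < e0) : k = l := by
  have a1 : ((k - l : ℤ) : ℝ) < 1 := by push_cast; linarith
  have a2 : ((l - k : ℤ) : ℝ) < 1 := by push_cast; linarith
  have b1 : k - l < 1 := by exact_mod_cast a1
  have b2 : l - k < 1 := by exact_mod_cast a2
  omega

theorem x1_sc_eq {b0 e0 : ℝ} (he : e0 ≤ b0 + 1) (y : ℝ) (p : ℕ) {z : ℂ} {k : ℤ} (h1 : b0 < z.re - k)
    (h2 : z.re - k < e0) : sc b0 e0 y p z = (z - k - y) ^ p := by
  have h : ∃ k : ℤ, b0 < z.re - k ∧ z.re - k < e0 := ⟨k, h1, h2⟩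
  unfold sc
  rw [dif_pos h]
  have e : h.choose = k := x1_k_unique he h.choose_spec.1 h.choose_spec.2 h1 h2
  rw [e]

theorem x1_sc_not {b0 e0 : ℝ} (y : ℝ) (p : ℕ) {z : ℂ} (h : ¬ InR b0 e0 z) : sc b0 e0 y p z = 0 := by
  have h' : ¬ ∃ k : ℤ, b0 < z.re - k ∧ z.re - k < e0 := h
  unfold sc
  rw [dif_neg h']

theorem x1_sc_per {b0 e0 : ℝ} (he : e0 ≤ b0 + 1) (y : ℝ) (p : ℕ) (z : ℂ) : sc b0 e0 y p (z + 1) = sc b0 e0 y p z := by
  by_cases hz : InR b0 e0 z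
  · obtain ⟨k, h1, h2⟩ := hz
    rw [x1_sc_eq he y p h1 h2, x1_sc_eq he y p (k := k + 1)]
    · push_cast
      congr 1
      ring
    · push_cast
      rw [Complex.add_re, Complex.one_re]
      linarith
    · push_cast
      rw [Complex.add_re, Complex.one_re]
      linarith
  · rw [x1_sc_not y p hz, x1_sc_not y p (fun h => hz ((x1_InR_add b0 e0 z).1 h))]

theorem x1_sc_pow {b0 e0 : ℝ} (he : e0 ≤ b0 + 1) (y : ℝ) (p : ℕ) {z : ℂ} (hz : InR b0 e0 z) :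
    sc b0 e0 y p z = (sc b0 e0 y 1 z) ^ p := by
  obtain ⟨k, h1, h2⟩ := hz
  rw [x1_sc_eq he y p h1 h2, x1_sc_eq he y 1 h1 h2, pow_one]

variable {b0 y e0 w h : ℝ} {V : Set ℂ}

theorem X1S.nInR (H : X1S b0 y e0 w h V) {z : ℂ} (hz : z ∈ x1U b0 e0 w h V) (hn : ¬ InR b0 e0 z) : z ∈ V := by
  rcases hz with hz | hz
  · exact hz
  · exact absurd (x1_RR_InR H.w0 hz) hn

theorem X1S.inRR (H : X1S b0 y e0 w h V) {z : ℂ} (hz : z ∈ x1U b0 e0 w h V) (hn : InR b0 e0 z) : z ∈ RR b0 e0 w h := by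
  rcases hz with hz | hz
  · exact absurd hn (H.disj z hz)
  · exact hz

theorem X1S.V_sub (_ : X1S b0 y e0 w h V) : V ⊆ x1U b0 e0 w h V := subset_union_left

theorem X1S.Q_sub (_ : X1S b0 y e0 w h V) : x1Q b0 e0 w h ⊆ x1U b0 e0 w h V :=
  (x1Q_sub_RR b0 e0 w h).trans subset_union_right

theorem X1S.Q_InR (H : X1S b0 y e0 w h V) {z : ℂ} (hz : z ∈ x1Q b0 e0 w h) : InR b0 e0 z :=
  x1_RR_InR H.w0 (x1Q_sub_RR b0 e0 w h hz)

theorem X1S.y_mem (H : X1S b0 y e0 w h V) : (y : ℂ) ∈ x1Q b0 e0 w h := by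
  refine ⟨?_, ?_, ?_⟩
  · simpa using H.h0
  · simpa using H.bw
  · simpa using H.ew

/-- on the fundamental rectangle -/
theorem X1S.sc_Q (H : X1S b0 y e0 w h V) (p : ℕ) {z : ℂ} (hz : z ∈ x1Q b0 e0 w h) : sc b0 e0 y p z = (z - y) ^ p := by
  have h1 := hz.2.1
  have h2 := hz.2.2
  have hw := H.w0
  rw [x1_sc_eq H.e1 y p (k := 0)]
  · simp
  · push_cast; linarith
  · push_cast; linarith

/-- local form of the domain -/
theorem X1S.local (H : X1S b0 y e0 w h V) {z0 : ℂ} (hz : z0 ∈ x1U b0 e0 w h V) : ∃ N : Set ℂ, IsOpen N ∧ z0 ∈ N ∧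
    N ⊆ x1U b0 e0 w h V ∧ ((∀ z ∈ N, ¬ InR b0 e0 z) ∨
      ∃ k : ℤ, ∀ z ∈ N, InR b0 e0 z ∧ z - k ∈ x1Q b0 e0 w h ∧ ∀ p, sc b0 e0 y p z = (z - k - y) ^ p) := by
  rcases hz with hz | hz
  · exact ⟨V, H.opV, hz, H.V_sub, Or.inl H.disj⟩
  · obtain ⟨him, k, h1, h2⟩ := hz
    refine ⟨{z | z - k ∈ x1Q b0 e0 w h}, ?_, ?_, ?_, Or.inr ⟨k, ?_⟩⟩
    · exact (x1Q_open b0 e0 w h).preimage (by fun_prop)
    · exact ⟨by simpa using him, by simpa using h1, by simpa using h2⟩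
    · rintro z ⟨a1, a2, a3⟩
      exact Or.inr ⟨by simpa using a1, k, by simpa using a2, by simpa using a3⟩
    · rintro z ⟨a1, a2, a3⟩
      have hw := H.w0
      have b1 : b0 + w < z.re - k := by simpa using a2
      have b2 : z.re - k < e0 - w := by simpa using a3
      exact ⟨⟨k, by linarith, by linarith⟩, ⟨a1, a2, a3⟩, fun p => x1_sc_eq H.e1 y p (by linarith) (by linarith)⟩

theorem X1S.opU (H : X1S b0 y e0 w h V) : IsOpen (x1U b0 e0 w h V) := by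
  rw [isOpen_iff_mem_nhds]
  intro z hz
  obtain ⟨N, h1, h2, h3, _⟩ := H.local hz
  exact Filter.mem_of_superset (h1.mem_nhds h2) h3

theorem X1S.perU (H : X1S b0 y e0 w h V) : Per (x1U b0 e0 w h V) := by
  intro z
  have h1 : z ∈ RR b0 e0 w h ↔ z + 1 ∈ RR b0 e0 w h := by
    constructor
    · rintro ⟨a, k, b, c⟩
      refine ⟨by simpa using a, k + 1, ?_, ?_⟩ <;> rw [Complex.add_re, Complex.one_re] <;> push_cast <;> linarith
    · rintro ⟨a, k, b, c⟩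
      rw [Complex.add_re, Complex.one_re] at b c
      refine ⟨by simpa using a, k - 1, ?_, ?_⟩ <;> push_cast <;> linarith
  constructor
  · rintro (hz | hz)
    · exact Or.inl ((H.perV z).1 hz)
    · exact Or.inr (h1.1 hz)
  · rintro (hz | hz)
    · exact Or.inl ((H.perV z).2 hz)
    · exact Or.inr (h1.2 hz)

/-- `InR` is locally constant on the domain -/
theorem X1S.InR_ev (H : X1S b0 y e0 w h V) {z0 : ℂ} (hz : z0 ∈ x1U b0 e0 w h V) :
    ∀ᶠ z in 𝓝 z0, (InR b0 e0 z ↔ InR b0 e0 z0) := by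
  obtain ⟨N, h1, h2, h3, h4⟩ := H.local hz
  filter_upwards [h1.mem_nhds h2] with z hz'
  rcases h4 with h4 | ⟨k, h4⟩
  · exact ⟨fun a => absurd a (h4 z hz'), fun a => absurd a (h4 z0 h2)⟩
  · exact ⟨fun _ => (h4 z0 h2).1, fun _ => (h4 z hz').1⟩

theorem X1S.sc_hasDeriv (H : X1S b0 y e0 w h V) (p : ℕ) {z : ℂ} (hz : z ∈ x1U b0 e0 w h V) :
    HasDerivAt (sc b0 e0 y p) (p * sc b0 e0 y (p - 1) z) z := by
  obtain ⟨N, h1, h2, h3, h4 | ⟨k, h4⟩⟩ := H.local hz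
  · rw [x1_sc_not y (p - 1) (h4 z h2), mul_zero]
    refine (hasDerivAt_const z (0 : ℂ)).congr_of_eventuallyEq ?_
    filter_upwards [h1.mem_nhds h2] with x hx
    exact x1_sc_not y p (h4 x hx)
  · rw [(h4 z h2).2.2]
    have h5 : HasDerivAt (fun z : ℂ => (z - k - y) ^ p) (p * (z - k - y) ^ (p - 1) * 1) z :=
      (((hasDerivAt_id' z).sub_const (k : ℂ)).sub_const (y : ℂ)).pow p
    rw [mul_one] at h5
    refine h5.congr_of_eventuallyEq ?_
    filter_upwards [h1.mem_nhds h2] with x hx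
    exact (h4 x hx).2.2 p

theorem X1S.sc_diff (H : X1S b0 y e0 w h V) (p : ℕ) : DifferentiableOn ℂ (sc b0 e0 y p) (x1U b0 e0 w h V) :=
  fun _ hz => (H.sc_hasDeriv p hz).differentiableAt.differentiableWithinAt

theorem X1S.sc1_bound (H : X1S b0 y e0 w h V) {z : ℂ} (hz : z ∈ x1U b0 e0 w h V) : ‖sc b0 e0 y 1 z‖ ≤ 1 + h := by
  have hh := H.h0
  by_cases hn : InR b0 e0 z
  · obtain ⟨him, k, h1, h2⟩ := H.inRR hz hn
    have hw := H.w0
    have he := H.e1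
    have hy1 := H.bw
    have hy2 := H.ew
    rw [x1_sc_eq H.e1 y 1 (k := k) (by linarith) (by linarith), pow_one]
    refine (Complex.norm_le_abs_re_add_abs_im _).trans (add_le_add ?_ ?_)
    · rw [abs_le]
      simp only [Complex.sub_re, Complex.intCast_re, Complex.ofReal_re]
      constructor <;> linarith
    · simpa using him.le
  · rw [x1_sc_not y 1 hn, norm_zero]
    linarith

theorem X1S.sc_bound (H : X1S b0 y e0 w h V) (p : ℕ) {z : ℂ} (hz : z ∈ x1U b0 e0 w h V) :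
    ‖sc b0 e0 y p z‖ ≤ (1 + h) ^ p := by
  have hh := H.h0
  by_cases hn : InR b0 e0 z
  · rw [x1_sc_pow H.e1 y p hn, norm_pow]
    exact pow_le_pow_left₀ (norm_nonneg _) (H.sc1_bound hz) p
  · rw [x1_sc_not y p hn, norm_zero]
    positivity

theorem X1S.Q_mem (H : X1S b0 y e0 w h V) {z : ℂ} (hz : z ∈ x1U b0 e0 w h V) (hn : InR b0 e0 z) :
    (y : ℂ) + sc b0 e0 y 1 z ∈ x1Q b0 e0 w h := by
  obtain ⟨him, k, h1, h2⟩ := H.inRR hz hn
  have hw := H.w0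
  rw [x1_sc_eq H.e1 y 1 (k := k) (by linarith) (by linarith), pow_one]
  refine ⟨?_, ?_, ?_⟩
  · simpa using him
  · simpa using h1
  · simpa using h2

/-- `x1Q` is star shaped with respect to `y` -/
theorem X1S.Q_star (H : X1S b0 y e0 w h V) {x : ℂ} (hx : (y : ℂ) + x ∈ x1Q b0 e0 w h) {s : ℝ} (hs : s ∈ Icc (0 : ℝ) 1) :
    (y : ℂ) + s * x ∈ x1Q b0 e0 w h := by
  obtain ⟨a1, a2, a3⟩ := hx
  have h1 := H.bw
  have h2 := H.ew
  have e1 : ((y : ℂ) + x).im = x.im := by simp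
  have e2 : ((y : ℂ) + x).re = y + x.re := by simp
  have e3 : ((y : ℂ) + s * x).im = s * x.im := by simp
  have e4 : ((y : ℂ) + s * x).re = y + s * x.re := by simp
  rw [e1] at a1
  rw [e2] at a2 a3
  have hs0 := hs.1
  have hs1 := hs.2
  refine ⟨?_, ?_, ?_⟩
  · rw [e3, abs_mul, abs_of_nonneg hs.1]
    calc s * |x.im| ≤ 1 * |x.im| := mul_le_mul_of_nonneg_right hs.2 (abs_nonneg _)
      _ = |x.im| := one_mul _
      _ < h := a1
  · rw [e4]
    rcases hs0.eq_or_lt with h0 | h0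
    · rw [← h0]; linarith
    · nlinarith
  · rw [e4]
    rcases hs0.eq_or_lt with h0 | h0
    · rw [← h0]; linarith
    · nlinarith

/-- the radius of a ball around `0` -/
def x1rho (b0 y e0 w h : ℝ) : ℝ := min h (min (y - b0 - w) (e0 - w - y)) / (1 + h)

theorem X1S.rho_pos (H : X1S b0 y e0 w h V) : 0 < x1rho b0 y e0 w h := by
  have h1 := H.bw
  have h2 := H.ew
  have h3 := H.h0
  unfold x1rho
  refine div_pos (lt_min h3 (lt_min (by linarith) (by linarith))) (by linarith)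

theorem X1S.delta_pos (H : X1S b0 y e0 w h V) : 0 < min h (min (y - b0 - w) (e0 - w - y)) := by
  have h1 := H.bw
  have h2 := H.ew
  exact lt_min H.h0 (lt_min (by linarith) (by linarith))

theorem X1S.Q_ball' (_ : X1S b0 y e0 w h V) {x : ℂ} (hx : ‖x‖ < min h (min (y - b0 - w) (e0 - w - y))) :
    (y : ℂ) + x ∈ x1Q b0 e0 w h := by
  have a1 : ‖x‖ < h := hx.trans_le (min_le_left _ _)
  have a2 : ‖x‖ < y - b0 - w := hx.trans_le ((min_le_right _ _).trans (min_le_left _ _))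
  have a3 : ‖x‖ < e0 - w - y := hx.trans_le ((min_le_right _ _).trans (min_le_right _ _))
  have e1 : ((y : ℂ) + x).im = x.im := by simp
  have e2 : ((y : ℂ) + x).re = y + x.re := by simp
  have b1 := Complex.abs_im_le_norm x
  have b2 := abs_le.1 (Complex.abs_re_le_norm x)
  refine ⟨?_, ?_, ?_⟩
  · rw [e1]; linarith
  · rw [e2]; linarith
  · rw [e2]; linarith

theorem X1S.Q_ball (H : X1S b0 y e0 w h V) {x t : ℂ} (hx : ‖x‖ ≤ 1 + h) (ht : ‖t‖ < x1rho b0 y e0 w h) :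
    (y : ℂ) + t * x ∈ x1Q b0 e0 w h := by
  have hh := H.h0
  apply H.Q_ball'
  rw [norm_mul]
  unfold x1rho at ht
  rw [lt_div_iff₀ (by linarith)] at ht
  calc ‖t‖ * ‖x‖ ≤ ‖t‖ * (1 + h) := mul_le_mul_of_nonneg_left hx (norm_nonneg _)
    _ < _ := ht

/-! ### the retraction -/

open Classical in
/-- the retraction `A_t` -/
def x1A (b0 y e0 : ℝ) {q : ℕ} (t : ℂ) (z : Fin q → ℂ) : Fin q → ℂ :=
  fun j => if InR b0 e0 (z j) then y + t * sc b0 e0 y 1 (z j) else z j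

open Classical in
/-- number of variables in the strip -/
def x1r (b0 e0 : ℝ) {q : ℕ} (z : Fin q → ℂ) : ℕ := (Finset.univ.filter fun j => InR b0 e0 (z j)).card

/-- domain of `(z,t) ↦ F (A_t z)` -/
def x1Om (b0 y e0 w h : ℝ) (V : Set ℂ) (q : ℕ) : Set ((Fin q → ℂ) × ℂ) :=
  {p | p.1 ∈ PU q (x1U b0 e0 w h V) ∧ ∀ j, InR b0 e0 (p.1 j) → (y : ℂ) + p.2 * sc b0 e0 y 1 (p.1 j) ∈ x1Q b0 e0 w h}

theorem x1A_in {q : ℕ} (t : ℂ) (z : Fin q → ℂ) {j : Fin q} (hj : InR b0 e0 (z j)) :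
    x1A b0 y e0 t z j = y + t * sc b0 e0 y 1 (z j) := by
  unfold x1A
  rw [if_pos hj]

theorem x1A_out {q : ℕ} (t : ℂ) (z : Fin q → ℂ) {j : Fin q} (hj : ¬ InR b0 e0 (z j)) :
    x1A b0 y e0 t z j = z j := by
  unfold x1A
  rw [if_neg hj]

theorem X1S.A_mem (H : X1S b0 y e0 w h V) {q : ℕ} {z : Fin q → ℂ} {t : ℂ} (hp : (z, t) ∈ x1Om b0 y e0 w h V q) :
    x1A b0 y e0 t z ∈ PU q (x1U b0 e0 w h V) := by
  intro j
  by_cases hj : InR b0 e0 (z j)
  · rw [x1A_in t z hj]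
    exact H.Q_sub (hp.2 j hj)
  · rw [x1A_out t z hj]
    exact hp.1 j

theorem X1S.Om_open (H : X1S b0 y e0 w h V) (q : ℕ) : IsOpen (x1Om b0 y e0 w h V q) := by
  rw [isOpen_iff_mem_nhds]
  rintro ⟨z, t⟩ ⟨h1, h2⟩
  have k1 : ∀ᶠ p : (Fin q → ℂ) × ℂ in 𝓝 (z, t), p.1 ∈ PU q (x1U b0 e0 w h V) :=
    (continuous_fst.tendsto (z, t)).eventually ((isOpen_PU q H.opU).mem_nhds h1)
  have k2 : ∀ j : Fin q, ∀ᶠ p : (Fin q → ℂ) × ℂ in 𝓝 (z, t), InR b0 e0 (p.1 j) →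
      (y : ℂ) + p.2 * sc b0 e0 y 1 (p.1 j) ∈ x1Q b0 e0 w h := by
    intro j
    have hcj : Tendsto (fun p : (Fin q → ℂ) × ℂ => p.1 j) (𝓝 (z, t)) (𝓝 (z j)) :=
      ((continuous_apply j).comp continuous_fst).tendsto (z, t)
    by_cases hj : InR b0 e0 (z j)
    · have hc : ContinuousAt (fun p : (Fin q → ℂ) × ℂ => (y : ℂ) + p.2 * sc b0 e0 y 1 (p.1 j)) (z, t) := by
        have h3 : ContinuousAt (sc b0 e0 y 1) (z j) := (H.sc_hasDeriv 1 (h1 j)).continuousAt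
        have h4 : ContinuousAt (fun p : (Fin q → ℂ) × ℂ => sc b0 e0 y 1 (p.1 j)) (z, t) := h3.tendsto.comp hcj
        exact continuousAt_const.add (continuous_snd.continuousAt.mul h4)
      have h5 := hc.tendsto.eventually ((x1Q_open b0 e0 w h).mem_nhds (h2 j hj))
      filter_upwards [h5] with p hp _
      exact hp
    · have h3 := hcj.eventually (H.InR_ev (h1 j))
      filter_upwards [h3] with p hp hpj
      exact absurd (hp.1 hpj) hj
  filter_upwards [k1, eventually_all.2 k2] with p a1 a2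
  exact ⟨a1, a2⟩

theorem X1S.Om_star (H : X1S b0 y e0 w h V) (q : ℕ) : ∀ p ∈ x1Om b0 y e0 w h V q, ∀ s : ℝ, s ∈ Icc (0 : ℝ) 1 →
    (p.1, (s : ℂ) * p.2) ∈ x1Om b0 y e0 w h V q := by
  rintro ⟨z, t⟩ ⟨h1, h2⟩ s hs
  refine ⟨h1, fun j hj => ?_⟩
  have := H.Q_star (h2 j hj) hs
  rw [mul_assoc]
  exact this

theorem X1S.Om_seg (H : X1S b0 y e0 w h V) (q : ℕ) : ∀ z ∈ PU q (x1U b0 e0 w h V), ∀ t : ℝ, t ∈ Icc (0 : ℝ) 1 →
    (z, (t : ℂ)) ∈ x1Om b0 y e0 w h V q := by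
  intro z hz t ht
  exact ⟨hz, fun j hj => H.Q_star (H.Q_mem (hz j) hj) ht⟩

theorem X1S.D (H : X1S b0 y e0 w h V) (q : ℕ) : X1D (PU q (x1U b0 e0 w h V)) (x1Om b0 y e0 w h V q) :=
  ⟨isOpen_PU q H.opU, H.Om_open q, H.Om_star q, H.Om_seg q⟩

theorem X1S.Om_ball (H : X1S b0 y e0 w h V) {q : ℕ} {z : Fin q → ℂ} (hz : z ∈ PU q (x1U b0 e0 w h V)) {t : ℂ}
    (ht : ‖t‖ < x1rho b0 y e0 w h) : (z, t) ∈ x1Om b0 y e0 w h V q :=
  ⟨hz, fun j _ => H.Q_ball (H.sc1_bound (hz j)) ht⟩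

/-- `(z,t) ↦ A_t z` is holomorphic -/
theorem X1S.A_diff (H : X1S b0 y e0 w h V) {q : ℕ} {p : (Fin q → ℂ) × ℂ} (hp : p.1 ∈ PU q (x1U b0 e0 w h V)) :
    DifferentiableAt ℂ (fun p : (Fin q → ℂ) × ℂ => x1A b0 y e0 p.2 p.1) p := by
  rw [differentiableAt_pi]
  intro j
  have hcj : Tendsto (fun p : (Fin q → ℂ) × ℂ => p.1 j) (𝓝 p) (𝓝 (p.1 j)) :=
    ((continuous_apply j).comp continuous_fst).tendsto p
  have hdj : DifferentiableAt ℂ (fun p : (Fin q → ℂ) × ℂ => p.1 j) p := by fun_prop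
  have hev := hcj.eventually (H.InR_ev (hp j))
  by_cases hj : InR b0 e0 (p.1 j)
  · have h1 : DifferentiableAt ℂ (fun p : (Fin q → ℂ) × ℂ => (y : ℂ) + p.2 * sc b0 e0 y 1 (p.1 j)) p := by
      have h2 : DifferentiableAt ℂ (fun p : (Fin q → ℂ) × ℂ => sc b0 e0 y 1 (p.1 j)) p := by
        have h3 : DifferentiableAt ℂ (sc b0 e0 y 1) (p.1 j) := (H.sc_hasDeriv 1 (hp j)).differentiableAt
        exact DifferentiableAt.comp (g := sc b0 e0 y 1) p h3 hdj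
      exact (differentiableAt_snd.mul h2).const_add _
    refine h1.congr_of_eventuallyEq ?_
    filter_upwards [hev] with x hx
    exact x1A_in _ _ (hx.2 hj)
  · refine hdj.congr_of_eventuallyEq ?_
    filter_upwards [hev] with x hx
    exact x1A_out _ _ (fun h => hj (hx.1 h))

theorem X1S.FA_diff (H : X1S b0 y e0 w h V) {q : ℕ} {F : (Fin q → ℂ) → ℂ}
    (hF : DifferentiableOn ℂ F (PU q (x1U b0 e0 w h V))) :
    DifferentiableOn ℂ (fun p : (Fin q → ℂ) × ℂ => F (x1A b0 y e0 p.2 p.1)) (x1Om b0 y e0 w h V q) := by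
  intro p hp
  have h1 := H.A_diff hp.1
  have h2 : DifferentiableAt ℂ F (x1A b0 y e0 p.2 p.1) :=
    hF.differentiableAt ((isOpen_PU q H.opU).mem_nhds (H.A_mem (z := p.1) (t := p.2) hp))
  exact (h2.comp p h1).differentiableWithinAt

/-- slices -/
theorem X1S.slice (H : X1S b0 y e0 w h V) {q : ℕ} {z : Fin q → ℂ} (hz : z ∈ PU q (x1U b0 e0 w h V)) :
    X1O {t : ℂ | (z, t) ∈ x1Om b0 y e0 w h V q} := (H.D q).slice hz

theorem X1S.slice_diff (H : X1S b0 y e0 w h V) {q : ℕ} {F : (Fin q → ℂ) → ℂ}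
    (hF : DifferentiableOn ℂ F (PU q (x1U b0 e0 w h V))) (z : Fin q → ℂ) :
    DifferentiableOn ℂ (fun t : ℂ => F (x1A b0 y e0 t z)) {t : ℂ | (z, t) ∈ x1Om b0 y e0 w h V q} :=
  x1_slice_diff (H.FA_diff hF) z

theorem X1S.r_ev (H : X1S b0 y e0 w h V) {q : ℕ} {z : Fin q → ℂ} (hz : z ∈ PU q (x1U b0 e0 w h V)) :
    ∀ᶠ x in 𝓝 z, x1r b0 e0 x = x1r b0 e0 z := by
  have h1 : ∀ j : Fin q, ∀ᶠ x in 𝓝 z, (InR b0 e0 (x j) ↔ InR b0 e0 (z j)) := fun j =>
    ((continuous_apply j).tendsto z).eventually (H.InR_ev (hz j))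
  filter_upwards [eventually_all.2 h1] with x hx
  unfold x1r
  congr 1
  ext j
  simp only [Finset.mem_filter, Finset.mem_univ, true_and]
  exact hx j

theorem x1r_le {q : ℕ} (z : Fin q → ℂ) : x1r b0 e0 z ≤ q := by
  unfold x1r
  exact (Finset.card_le_univ _).trans (by simp)

theorem x1r_perm {q : ℕ} (z : Fin q → ℂ) (σ : Equiv.Perm (Fin q)) : x1r b0 e0 (fun i => z (σ i)) = x1r b0 e0 z := by
  classical
  unfold x1r
  rw [← Finset.card_map σ.toEmbedding]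
  congr 1
  ext j
  simp only [Finset.mem_map, Finset.mem_filter, Finset.mem_univ, true_and, Equiv.coe_toEmbedding]
  constructor
  · rintro ⟨i, hi, rfl⟩
    exact hi
  · intro hj
    exact ⟨σ.symm j, by simpa using hj, by simp⟩

theorem x1A_perm {q : ℕ} (t : ℂ) (z : Fin q → ℂ) (σ : Equiv.Perm (Fin q)) :
    x1A b0 y e0 t (fun i => z (σ i)) = fun i => x1A b0 y e0 t z (σ i) := rfl

theorem x1r_cons_in {q : ℕ} {a : ℂ} (z : Fin q → ℂ) (ha : InR b0 e0 a) :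
    x1r b0 e0 (Fin.cons a z : Fin (q + 1) → ℂ) = x1r b0 e0 z + 1 := by
  classical
  unfold x1r
  rw [Finset.card_filter, Finset.card_filter, Fin.sum_univ_succ]
  simp only [Fin.cons_zero, Fin.cons_succ]
  rw [if_pos ha, add_comm]

theorem x1r_cons_out {q : ℕ} {a : ℂ} (z : Fin q → ℂ) (ha : ¬ InR b0 e0 a) :
    x1r b0 e0 (Fin.cons a z : Fin (q + 1) → ℂ) = x1r b0 e0 z := by
  classical
  unfold x1r
  rw [Finset.card_filter, Finset.card_filter, Fin.sum_univ_succ]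
  simp only [Fin.cons_zero, Fin.cons_succ]
  rw [if_neg ha, zero_add]

theorem x1r_insert_in {q : ℕ} {a : ℂ} (z : Fin q → ℂ) (i : Fin (q + 1)) (ha : InR b0 e0 a) :
    x1r b0 e0 (i.insertNth a z : Fin (q + 1) → ℂ) = x1r b0 e0 z + 1 := by
  classical
  unfold x1r
  rw [Finset.card_filter, Finset.card_filter, Fin.sum_univ_succAbove _ i]
  simp only [Fin.insertNth_apply_same, Fin.insertNth_apply_succAbove]
  rw [if_pos ha, add_comm]

theorem x1r_insert_out {q : ℕ} {a : ℂ} (z : Fin q → ℂ) (i : Fin (q + 1)) (ha : ¬ InR b0 e0 a) :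
    x1r b0 e0 (i.insertNth a z : Fin (q + 1) → ℂ) = x1r b0 e0 z := by
  classical
  unfold x1r
  rw [Finset.card_filter, Finset.card_filter, Fin.sum_univ_succAbove _ i]
  simp only [Fin.insertNth_apply_same, Fin.insertNth_apply_succAbove]
  rw [if_neg ha, zero_add]

theorem x1A_insert_in {q : ℕ} {a : ℂ} (t : ℂ) (z : Fin q → ℂ) (i : Fin (q + 1)) (ha : InR b0 e0 a) :
    x1A b0 y e0 t (i.insertNth a z : Fin (q + 1) → ℂ) = i.insertNth (y + t * sc b0 e0 y 1 a) (x1A b0 y e0 t z) := by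
  funext j
  refine Fin.succAboveCases i ?_ (fun k => ?_) j
  · rw [x1A_in t _ (by rw [Fin.insertNth_apply_same]; exact ha), Fin.insertNth_apply_same, Fin.insertNth_apply_same]
  · rw [Fin.insertNth_apply_succAbove]
    unfold x1A
    rw [Fin.insertNth_apply_succAbove]

theorem x1A_insert_out {q : ℕ} {a : ℂ} (t : ℂ) (z : Fin q → ℂ) (i : Fin (q + 1)) (ha : ¬ InR b0 e0 a) :
    x1A b0 y e0 t (i.insertNth a z : Fin (q + 1) → ℂ) = i.insertNth a (x1A b0 y e0 t z) := by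
  funext j
  refine Fin.succAboveCases i ?_ (fun k => ?_) j
  · rw [x1A_out t _ (by rw [Fin.insertNth_apply_same]; exact ha), Fin.insertNth_apply_same, Fin.insertNth_apply_same]
  · rw [Fin.insertNth_apply_succAbove]
    unfold x1A
    rw [Fin.insertNth_apply_succAbove]

/-- holomorphic, periodic, alternating functions (not necessarily bounded) -/
structure X1F (q : ℕ) (U : Set ℂ) (F : (Fin q → ℂ) → ℂ) : Prop where
  hol : DifferentiableOn ℂ F (PU q U)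
  per : ∀ z ∈ PU q U, ∀ i, F (Function.update z i (z i + 1)) = F z
  alt : ∀ z ∈ PU q U, ∀ σ : Equiv.Perm (Fin q), F (fun i => z (σ i)) = ((Equiv.Perm.sign σ : ℤ) : ℂ) * F z

theorem BO.x1 {q : ℕ} {U : Set ℂ} {F : (Fin q → ℂ) → ℂ} (h : BO q U F) : X1F q U F := ⟨h.hol, h.per, h.alt⟩

end

end Pool.Agent.Helper67.DO
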