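import Pool.Agent.Helper59.DO.X1b
import Pool.Agent.Helper26.DO.Lib

set_option autoImplicit false

/-!
# X1, part c: the operator `H`
-/

namespace Pool.Agent.Helper67.DO

open Set Filter Topology Metric MeasureTheory
open scoped BigOperators Real

noncomputable section

variable {b0 y e0 w h : ℝ} {V : Set ℂ}

/-! ### periodicity with respect to integer vectors -/

theorem x1_per_int {U : Set ℂ} (hU : Per U) (z : ℂ) (k : ℤ) : z ∈ U ↔ z + k ∈ U := by
  induction k using Int.induction_on with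
  | zero => simp
  | succ n ih =>
    rw [ih, hU]
    push_cast
    rw [add_assoc]
  | pred n ih =>
    rw [ih, hU (z + ((-(n : ℤ) - 1 : ℤ) : ℂ))]
    push_cast
    rw [show z + (-(n : ℂ) - 1) + 1 = z + -(n : ℂ) by ring]

theorem X1F.per_one {q : ℕ} {U : Set ℂ} (hU : Per U) {F : (Fin q → ℂ) → ℂ} (hF : X1F q U F) {z : Fin q → ℂ}
    (hz : z ∈ PU q U) (i : Fin q) (k : ℤ) : F (Function.update z i (z i + k)) = F z := by
  have hm : ∀ k : ℤ, Function.update z i (z i + k) ∈ PU q U := by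
    intro k j
    by_cases hj : j = i
    · subst hj
      rw [Function.update_self]
      exact (x1_per_int hU _ k).1 (hz j)
    · rw [Function.update_of_ne hj]
      exact hz j
  induction k using Int.induction_on with
  | zero => simp
  | succ n ih =>
    have h1 := hF.per _ (hm n) i
    rw [Function.update_self, Function.update_idem] at h1
    push_cast at h1 ih ⊢
    rw [← add_assoc, h1, ih]
  | pred n ih =>
    have h1 := hF.per _ (hm (-(n : ℤ) - 1)) i
    rw [Function.update_self, Function.update_idem] at h1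
    rw [← h1, ← ih]
    congr 2
    push_cast
    ring

theorem X1F.per_vec {q : ℕ} {U : Set ℂ} (hU : Per U) {F : (Fin q → ℂ) → ℂ} (hF : X1F q U F) {z : Fin q → ℂ}
    (hz : z ∈ PU q U) (k : Fin q → ℤ) : F (fun j => z j + k j) = F z := by
  classical
  have key : ∀ s : Finset (Fin q), F (fun j => if j ∈ s then z j + k j else z j) = F z := by
    intro s
    induction s using Finset.induction_on with
    | empty => simp
    | insert a s ha ih =>
      have hm : (fun j => if j ∈ s then z j + k j else z j) ∈ PU q U := by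
        intro j
        show (if j ∈ s then z j + k j else z j) ∈ U
        split_ifs
        · exact (x1_per_int hU _ _).1 (hz j)
        · exact hz j
      have h1 := hF.per_one hU hm a (k a)
      rw [ih] at h1
      rw [← h1]
      congr 1
      funext j
      by_cases hj : j = a
      · subst hj
        simp [ha]
      · rw [Function.update_of_ne hj]
        simp [Finset.mem_insert, hj]
  have := key Finset.univ
  simpa using this

theorem X1S.A_one (H : X1S b0 y e0 w h V) {q : ℕ} {F : (Fin q → ℂ) → ℂ} (hF : X1F q (x1U b0 e0 w h V) F)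
    {z : Fin q → ℂ} (hz : z ∈ PU q (x1U b0 e0 w h V)) : F (x1A b0 y e0 1 z) = F z := by
  have h1 : ∀ j, ∃ k : ℤ, x1A b0 y e0 1 z j = z j + k := by
    intro j
    by_cases hj : InR b0 e0 (z j)
    · have hj' := hj
      obtain ⟨k, a, b⟩ := hj
      refine ⟨-k, ?_⟩
      rw [x1A_in 1 z hj', x1_sc_eq H.e1 y 1 a b]
      push_cast
      ring
    · exact ⟨0, by rw [x1A_out 1 z hj]; simp⟩
  choose k hk using h1
  rw [← hF.per_vec H.perU hz k]
  congr 1
  funext j
  exact hk j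

/-! ### the operator -/

/-- the operator `H` -/
def x1H (b0 y e0 : ℝ) {q : ℕ} (F : (Fin q → ℂ) → ℂ) (z : Fin q → ℂ) : ℂ :=
  x1L (x1r b0 e0 z) (fun t => F (x1A b0 y e0 t z))

theorem X1S.H_hol (H : X1S b0 y e0 w h V) {q : ℕ} {F : (Fin q → ℂ) → ℂ}
    (hF : DifferentiableOn ℂ F (PU q (x1U b0 e0 w h V))) :
    DifferentiableOn ℂ (x1H b0 y e0 F) (PU q (x1U b0 e0 w h V)) := by
  intro z hz
  have h1 := ((X1P.L (E := Fin q → ℂ) (x1r b0 e0 z)) _ _ _ (H.D q) (H.FA_diff hF)).1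
  have h2 := h1.differentiableAt ((isOpen_PU q H.opU).mem_nhds hz)
  refine (h2.congr_of_eventuallyEq ?_).differentiableWithinAt
  filter_upwards [H.r_ev hz] with x hx
  show x1L (x1r b0 e0 x) _ = x1L (x1r b0 e0 z) _
  rw [hx]

theorem X1S.per_A (H : X1S b0 y e0 w h V) {q : ℕ} {F : (Fin q → ℂ) → ℂ} (hF : X1F q (x1U b0 e0 w h V) F)
    {z : Fin q → ℂ} (i : Fin q) {t : ℂ} (ht : (z, t) ∈ x1Om b0 y e0 w h V q) :
    F (x1A b0 y e0 t (Function.update z i (z i + 1))) = F (x1A b0 y e0 t z) := by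
  by_cases hi : InR b0 e0 (z i)
  · congr 1
    funext j
    by_cases hj : j = i
    · subst hj
      have h1 : InR b0 e0 (Function.update z j (z j + 1) j) := by
        rw [Function.update_self]
        exact (x1_InR_add b0 e0 _).2 hi
      rw [x1A_in t _ h1, x1A_in t _ hi, Function.update_self, x1_sc_per H.e1]
    · unfold x1A
      rw [Function.update_of_ne hj]
  · rw [← hF.per _ (H.A_mem ht) i]
    congr 1
    funext j
    by_cases hj : j = i
    · subst hj
      have h1 : ¬ InR b0 e0 (Function.update z j (z j + 1) j) := by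
        rw [Function.update_self]
        exact fun h => hi ((x1_InR_add b0 e0 _).1 h)
      rw [x1A_out t _ h1, Function.update_self, Function.update_self, x1A_out t _ hi]
    · rw [Function.update_of_ne hj]
      unfold x1A
      rw [Function.update_of_ne hj]

theorem x1r_update {q : ℕ} (z : Fin q → ℂ) (i : Fin q) {a : ℂ} (ha : InR b0 e0 a ↔ InR b0 e0 (z i)) :
    x1r b0 e0 (Function.update z i a) = x1r b0 e0 z := by
  unfold x1r
  congr 1
  ext j
  simp only [Finset.mem_filter, Finset.mem_univ, true_and]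
  by_cases hj : j = i
  · subst hj
    rw [Function.update_self]
    exact ha
  · rw [Function.update_of_ne hj]

theorem X1S.H_F (H : X1S b0 y e0 w h V) {q : ℕ} {F : (Fin q → ℂ) → ℂ} (hF : X1F q (x1U b0 e0 w h V) F) :
    X1F q (x1U b0 e0 w h V) (x1H b0 y e0 F) := by
  refine ⟨H.H_hol hF.hol, ?_, ?_⟩
  · intro z hz i
    show x1L (x1r b0 e0 _) _ = x1L (x1r b0 e0 z) _
    rw [x1r_update z i (x1_InR_add b0 e0 (z i))]
    exact (X1G.L _).congr _ (H.slice hz) _ _ fun t ht => H.per_A hF i ht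
  · intro z hz σ
    show x1L (x1r b0 e0 _) _ = _ * x1L (x1r b0 e0 z) _
    rw [x1r_perm, ← (X1G.L _).smul (H.slice hz) (H.slice_diff hF.hol z)]
    exact (X1G.L _).congr _ (H.slice hz) _ _ fun t ht => hF.alt _ (H.A_mem ht) σ

theorem X1S.H_bound (H : X1S b0 y e0 w h V) : ∃ C : ℕ → ℝ, (∀ q, 0 ≤ C q) ∧ ∀ (q : ℕ) (F : (Fin q → ℂ) → ℂ),
    DifferentiableOn ℂ F (PU q (x1U b0 e0 w h V)) → ∀ B : ℝ, (∀ z ∈ PU q (x1U b0 e0 w h V), ‖F z‖ ≤ B) →
    ∀ z ∈ PU q (x1U b0 e0 w h V), ‖x1H b0 y e0 F z‖ ≤ C q * B := by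
  choose K hK0 hK using fun r : ℕ => x1L_bound r H.rho_pos
  refine ⟨fun q => ∑ r ∈ Finset.range (q + 1), K r, fun q => Finset.sum_nonneg fun r _ => hK0 r,
    fun q F hF B hB z hz => ?_⟩
  have hB0 : 0 ≤ B := (norm_nonneg _).trans (hB z hz)
  have h1 := hK (x1r b0 e0 z) (fun t => F (x1A b0 y e0 t z)) _ (H.slice hz) (H.slice_diff hF z)
    (fun t ht => H.Om_ball hz (by simpa using ht)) B
    (fun t ht => hB _ (H.A_mem (H.Om_ball hz (by simpa using ht))))
    (fun t ht => hB _ (H.A_mem (H.Om_seg q z hz t ht)))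
  refine h1.trans (mul_le_mul_of_nonneg_right ?_ hB0)
  exact Finset.single_le_sum (fun r _ => hK0 r) (Finset.mem_range.2 (Nat.lt_succ_of_le (x1r_le z)))

theorem X1S.H_lin (H : X1S b0 y e0 w h V) {q : ℕ} {F G : (Fin q → ℂ) → ℂ} (c : ℂ)
    (hF : DifferentiableOn ℂ F (PU q (x1U b0 e0 w h V))) (hG : DifferentiableOn ℂ G (PU q (x1U b0 e0 w h V)))
    {z : Fin q → ℂ} (hz : z ∈ PU q (x1U b0 e0 w h V)) :
    x1H b0 y e0 (fun x => c * F x + G x) z = c * x1H b0 y e0 F z + x1H b0 y e0 G z :=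
  (X1G.L _).lin _ (H.slice hz) _ _ c (H.slice_diff hF z) (H.slice_diff hG z)

/-! ### `H` commutes with `∂` -/

theorem X1S.insert_mem (_ : X1S b0 y e0 w h V) {q : ℕ} {z : Fin q → ℂ} (hz : z ∈ PU q (x1U b0 e0 w h V))
    (i : Fin (q + 1)) {a : ℂ} (ha : a ∈ x1U b0 e0 w h V) :
    (i.insertNth a z : Fin (q + 1) → ℂ) ∈ PU (q + 1) (x1U b0 e0 w h V) := mem_PU_insert hz ha i

theorem x1_term_diff {q : ℕ} {U : Set ℂ} (hU : IsOpen U) {F : (Fin (q + 1) → ℂ) → ℂ}
    (hF : DifferentiableOn ℂ F (PU (q + 1) U)) (i : Fin q) :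
    DifferentiableOn ℂ (fun u : Fin q → ℂ => deriv (fun τ : ℂ => F (i.succ.insertNth τ u)) (u i)) (PU q U) := by
  have h1 : DifferentiableOn ℂ (fun u : Fin q → ℂ => fderiv ℂ F (i.succ.insertNth (u i) u) (Pi.single i.succ 1))
      (PU q U) := by
    refine (Pool.Agent.Helper38.DO.sev_fderiv_apply (isOpen_PU (q + 1) hU) hF (Pi.single i.succ 1)).comp
      (f := fun u : Fin q → ℂ => (i.succ.insertNth (u i) u : Fin (q + 1) → ℂ)) ?_
      fun u hu => mem_PU_insert hu (hu i) i.succ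
    refine Differentiable.differentiableOn ?_
    rw [differentiable_pi]
    intro j
    refine Fin.succAboveCases i.succ ?_ (fun k => ?_) j
    · simp only [Fin.insertNth_apply_same]
      fun_prop
    · simp only [Fin.insertNth_apply_succAbove]
      fun_prop
  refine h1.congr fun u hu => ?_
  have h2 : HasFDerivAt F (fderiv ℂ F (i.succ.insertNth (α := fun _ => ℂ) (u i) u))
      (i.succ.insertNth (α := fun _ => ℂ) (u i) u) :=
    (hF.differentiableAt ((isOpen_PU (q + 1) hU).mem_nhds (mem_PU_insert hu (hu i) i.succ))).hasFDerivAt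
  have h3 := h2.comp_hasDerivAt (u i) (hasDerivAt_insert u i.succ (u i))
  exact h3.deriv

open Classical in
theorem X1S.A_deriv (H : X1S b0 y e0 w h V) {q : ℕ} {F : (Fin (q + 1) → ℂ) → ℂ}
    (hF : DifferentiableOn ℂ F (PU (q + 1) (x1U b0 e0 w h V))) {z : Fin q → ℂ} (i : Fin q) {t : ℂ}
    (ht : (z, t) ∈ x1Om b0 y e0 w h V q) :
    deriv (fun τ : ℂ => F (x1A b0 y e0 t (i.succ.insertNth τ z : Fin (q + 1) → ℂ))) (z i) =
      (if InR b0 e0 (z i) then t else 1) *
        deriv (fun τ : ℂ => F (i.succ.insertNth τ (x1A b0 y e0 t z))) (x1A b0 y e0 t z i) := by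
  have hz : z ∈ PU q (x1U b0 e0 w h V) := ht.1
  have hA := H.A_mem ht
  have hev := H.InR_ev (hz i)
  by_cases hin : InR b0 e0 (z i)
  · rw [if_pos hin]
    have h3 : (fun τ : ℂ => F (x1A b0 y e0 t (i.succ.insertNth τ z : Fin (q + 1) → ℂ))) =ᶠ[𝓝 (z i)]
        fun τ => F (i.succ.insertNth ((y : ℂ) + t * sc b0 e0 y 1 τ) (x1A b0 y e0 t z)) := by
      filter_upwards [hev] with τ hτ
      rw [x1A_insert_in t z i.succ (hτ.2 hin)]
    rw [h3.deriv_eq]
    have h4 : x1A b0 y e0 t z i = (y : ℂ) + t * sc b0 e0 y 1 (z i) := x1A_in t z hin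
    have h5 : HasDerivAt (fun τ : ℂ => (y : ℂ) + t * sc b0 e0 y 1 τ) (t * (1 * 1)) (z i) := by
      have := (H.sc_hasDeriv 1 (hz i)).const_mul t
      have e : ((1 : ℕ) : ℂ) * sc b0 e0 y (1 - 1) (z i) = 1 * 1 := by
        rw [Nat.sub_self, x1_sc_pow H.e1 y 0 hin, pow_zero, Nat.cast_one]
      rw [e] at this
      exact this.const_add _
    have h6 := (diff_insert H.opU hF hA i.succ (hA i)).hasDerivAt
    have h7 : HasDerivAt (fun τ : ℂ => F (i.succ.insertNth ((y : ℂ) + t * sc b0 e0 y 1 τ) (x1A b0 y e0 t z)))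
        (deriv (fun τ : ℂ => F (i.succ.insertNth τ (x1A b0 y e0 t z))) (x1A b0 y e0 t z i) * (t * (1 * 1))) (z i) := by
      rw [h4] at h6 ⊢
      exact HasDerivAt.comp (h₂ := fun τ : ℂ => F (i.succ.insertNth τ (x1A b0 y e0 t z))) (z i) h6 h5
    rw [h7.deriv]
    ring
  · rw [if_neg hin, one_mul, x1A_out t z hin]
    apply Filter.EventuallyEq.deriv_eq
    filter_upwards [hev] with τ hτ
    rw [x1A_insert_out t z i.succ (fun h => hin (hτ.1 h))]

/-- common form for `x1L` and `x1c` -/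
theorem X1S.Lam_deriv (H : X1S b0 y e0 w h V) {Λ : ℕ → (ℂ → ℂ) → ℂ} (hG : ∀ r, X1G (Λ r)) (hP : ∀ r, X1P ℂ (Λ r))
    (hmul : ∀ (g : ℂ → ℂ) r, DifferentiableAt ℂ g 0 → Λ (r + 1) (fun t => t * g t) = Λ r g)
    {q : ℕ} {F : (Fin (q + 1) → ℂ) → ℂ}
    (hF : DifferentiableOn ℂ F (PU (q + 1) (x1U b0 e0 w h V))) {z : Fin q → ℂ}
    (hz : z ∈ PU q (x1U b0 e0 w h V)) (i : Fin q) :
    deriv (fun τ : ℂ => Λ (x1r b0 e0 (i.succ.insertNth τ z : Fin (q + 1) → ℂ))
      (fun t => F (x1A b0 y e0 t (i.succ.insertNth τ z : Fin (q + 1) → ℂ)))) (z i) =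
      Λ (x1r b0 e0 z) (fun t => deriv (fun τ : ℂ => F (i.succ.insertNth τ (x1A b0 y e0 t z))) (x1A b0 y e0 t z i)) := by
  set U := x1U b0 e0 w h V with hUdef
  set W : Set ℂ := {τ | τ ∈ U ∧ ((InR b0 e0 τ ↔ InR b0 e0 (z i)))} with hW
  have hWo : IsOpen W := by
    rw [isOpen_iff_mem_nhds]
    rintro τ ⟨h1, h2⟩
    filter_upwards [H.opU.mem_nhds h1, H.InR_ev h1] with x hx1 hx2
    exact ⟨hx1, hx2.trans h2⟩
  have hzi : z i ∈ W := ⟨hz i, Iff.rfl⟩
  set Ω : Set (ℂ × ℂ) := {p | ((i.succ.insertNth p.1 z : Fin (q + 1) → ℂ), p.2) ∈ x1Om b0 y e0 w h V (q + 1)} with hΩ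
  have hcont : Differentiable ℂ (fun p : ℂ × ℂ => ((i.succ.insertNth p.1 z : Fin (q + 1) → ℂ), p.2)) := by
    refine Differentiable.prodMk ?_ differentiable_snd
    rw [differentiable_pi]
    intro j
    refine Fin.succAboveCases i.succ ?_ (fun k => ?_) j
    · simp only [Fin.insertNth_apply_same]
      exact differentiable_fst
    · simp only [Fin.insertNth_apply_succAbove]
      exact differentiable_const _
  have hD : X1D W Ω := by
    refine ⟨hWo, (H.Om_open (q + 1)).preimage hcont.continuous, fun p hp s hs => H.Om_star (q + 1) _ hp s hs,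
      fun τ hτ t ht => H.Om_seg (q + 1) _ (H.insert_mem hz i.succ hτ.1) t ht⟩
  have hf : DifferentiableOn ℂ (fun p : ℂ × ℂ => F (x1A b0 y e0 p.2 (i.succ.insertNth p.1 z : Fin (q + 1) → ℂ))) Ω :=
    (H.FA_diff hF).comp (f := fun p : ℂ × ℂ => ((i.succ.insertNth p.1 z : Fin (q + 1) → ℂ), p.2))
      hcont.differentiableOn fun p hp => hp
  have hO := hD.slice hzi
  have hsl : ∀ {t : ℂ}, (z i, t) ∈ Ω → (z, t) ∈ x1Om b0 y e0 w h V q := by
    intro t ht
    refine ⟨hz, fun j hj => ?_⟩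
    have := ht.2 (i.succ.succAbove j)
    simp only [Fin.insertNth_apply_succAbove] at this
    exact this hj
  have hT := H.slice_diff (x1_term_diff H.opU hF i) z
  by_cases hin : InR b0 e0 (z i)
  · have e1 : (fun τ : ℂ => Λ (x1r b0 e0 (i.succ.insertNth τ z : Fin (q + 1) → ℂ))
        (fun t => F (x1A b0 y e0 t (i.succ.insertNth τ z : Fin (q + 1) → ℂ)))) =ᶠ[𝓝 (z i)]
        fun τ => Λ (x1r b0 e0 z + 1) (fun t => F (x1A b0 y e0 t (i.succ.insertNth τ z : Fin (q + 1) → ℂ))) := by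
      filter_upwards [hWo.mem_nhds hzi] with τ hτ
      rw [x1r_insert_in z i.succ (hτ.2.2 hin)]
    rw [e1.deriv_eq, (hP _).deriv hD hf hzi, ← hmul _ _ (hT.differentiableAt ((H.slice hz).op.mem_nhds (H.slice hz).zero))]
    refine (hG _).congr _ hO _ _ fun t ht => ?_
    show deriv (fun τ : ℂ => F (x1A b0 y e0 t (i.succ.insertNth τ z : Fin (q + 1) → ℂ))) (z i) = _
    rw [H.A_deriv hF i (hsl ht), if_pos hin]
  · have e1 : (fun τ : ℂ => Λ (x1r b0 e0 (i.succ.insertNth τ z : Fin (q + 1) → ℂ))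
        (fun t => F (x1A b0 y e0 t (i.succ.insertNth τ z : Fin (q + 1) → ℂ)))) =ᶠ[𝓝 (z i)]
        fun τ => Λ (x1r b0 e0 z) (fun t => F (x1A b0 y e0 t (i.succ.insertNth τ z : Fin (q + 1) → ℂ))) := by
      filter_upwards [hWo.mem_nhds hzi] with τ hτ
      rw [x1r_insert_out z i.succ (fun h => hin (hτ.2.1 h))]
    rw [e1.deriv_eq, (hP _).deriv hD hf hzi]
    refine (hG _).congr _ hO _ _ fun t ht => ?_
    show deriv (fun τ : ℂ => F (x1A b0 y e0 t (i.succ.insertNth τ z : Fin (q + 1) → ℂ))) (z i) = _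
    rw [H.A_deriv hF i (hsl ht), if_neg hin, one_mul]

theorem X1S.H_dd (H : X1S b0 y e0 w h V) {q : ℕ} {F : (Fin (q + 1) → ℂ) → ℂ}
    (hF : DifferentiableOn ℂ F (PU (q + 1) (x1U b0 e0 w h V))) {z : Fin q → ℂ}
    (hz : z ∈ PU q (x1U b0 e0 w h V)) : dd q (x1H b0 y e0 F) z = x1H b0 y e0 (dd q F) z := by
  have h1 : ∀ i : Fin q, deriv (fun τ : ℂ => x1H b0 y e0 F (i.succ.insertNth τ z)) (z i) =
      x1L (x1r b0 e0 z) (fun t => deriv (fun τ : ℂ => F (i.succ.insertNth τ (x1A b0 y e0 t z))) (x1A b0 y e0 t z i)) :=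
    fun i => H.Lam_deriv X1G.L (fun r => X1P.L r) (fun g r hg => x1L_mul hg r) hF hz i
  unfold dd
  rw [Finset.sum_congr rfl fun i _ => by rw [h1 i]]
  exact ((X1G.L (x1r b0 e0 z)).sum (H.slice hz) Finset.univ
    (fun (i : Fin q) (t : ℂ) => deriv (fun τ : ℂ => F (i.succ.insertNth τ (x1A b0 y e0 t z))) (x1A b0 y e0 t z i))
    (fun i _ => H.slice_diff (x1_term_diff H.opU hF i) z) (fun i => (-1 : ℂ) ^ (i : ℕ))).symm

/-! ### Euler identity -/

/-- the weight zero part -/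
def x1F0 (b0 y e0 : ℝ) {q : ℕ} (F : (Fin q → ℂ) → ℂ) (z : Fin q → ℂ) : ℂ :=
  x1c (x1r b0 e0 z) (fun t => F (x1A b0 y e0 t z))

theorem x1_sum_deriv {q : ℕ} {U : Set ℂ} (hU : IsOpen U) {G : (Fin q → ℂ) → ℂ} (hG : DifferentiableOn ℂ G (PU q U))
    {z : Fin q → ℂ} (hz : z ∈ PU q U) (a : Fin q → ℂ) :
    ∑ j, a j * deriv (fun t => G (Function.update z j t)) (z j) = deriv (fun s : ℂ => G (fun j => z j + s * a j)) 0 := by
  have h1 : HasFDerivAt G (fderiv ℂ G z) z := (hG.differentiableAt ((isOpen_PU q hU).mem_nhds hz)).hasFDerivAt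
  have h2 : ∀ j, deriv (fun t => G (Function.update z j t)) (z j) = fderiv ℂ G z (Pi.single j 1) := fun j =>
    lib_pd_eq_fderiv j h1.differentiableAt
  have h3 : HasDerivAt (fun s : ℂ => (fun j => z j + s * a j : Fin q → ℂ)) a 0 := by
    rw [hasDerivAt_pi]
    intro j
    have := ((hasDerivAt_id' (0 : ℂ)).mul_const (a j)).const_add (z j)
    simpa using this
  have h4 : (fun s : ℂ => (fun j => z j + s * a j : Fin q → ℂ)) 0 = z := by
    funext j
    simp
  have h5 : HasFDerivAt G (fderiv ℂ G z) ((fun s : ℂ => (fun j => z j + s * a j : Fin q → ℂ)) 0) := by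
    rw [h4]
    exact h1
  have h6 : HasDerivAt (fun s : ℂ => G (fun j => z j + s * a j)) (fderiv ℂ G z a) 0 := h5.comp_hasDerivAt (0 : ℂ) h3
  rw [h6.deriv]
  simp only [h2]
  have h7 : a = ∑ j, a j • (Pi.single j (1 : ℂ) : Fin q → ℂ) := by
    funext k
    simp [Finset.sum_apply, Pi.single_apply]
  conv_rhs => rw [h7]
  rw [map_sum]
  refine Finset.sum_congr rfl fun j _ => ?_
  rw [map_smul, smul_eq_mul]

theorem X1S.euler (H : X1S b0 y e0 w h V) {q : ℕ} {F : (Fin q → ℂ) → ℂ} (hF : X1F q (x1U b0 e0 w h V) F)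
    {z : Fin q → ℂ} (hz : z ∈ PU q (x1U b0 e0 w h V)) :
    ∑ j, (sc b0 e0 y 1 (z j) * deriv (fun t => x1H b0 y e0 F (Function.update z j t)) (z j) -
      deriv (sc b0 e0 y 1) (z j) * x1H b0 y e0 F z) = F z - x1F0 b0 y e0 F z := by
  classical
  set g : ℂ → ℂ := fun t => F (x1A b0 y e0 t z) with hg
  set O : Set ℂ := {t : ℂ | (z, t) ∈ x1Om b0 y e0 w h V q} with hO
  have hOO : X1O O := H.slice hz
  have hgd : DifferentiableOn ℂ g O := H.slice_diff hF.hol z
  have hr : ∑ j, deriv (sc b0 e0 y 1) (z j) = (x1r b0 e0 z : ℂ) := by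
    unfold x1r
    rw [Finset.card_filter]
    push_cast
    refine Finset.sum_congr rfl fun j _ => ?_
    rw [(H.sc_hasDeriv 1 (hz j)).deriv]
    split_ifs with hj
    · rw [Nat.sub_self, x1_sc_pow H.e1 y 0 hj]
      simp
    · rw [x1_sc_not y _ hj, mul_zero]
  rw [Finset.sum_sub_distrib, ← Finset.sum_mul, hr, x1_sum_deriv H.opU (H.H_hol hF.hol) hz]
  -- the function `s ↦ H F (z + s a)`
  have h0 : ∀ j, ∀ᶠ s : ℂ in 𝓝 0, (InR b0 e0 (z j + s * sc b0 e0 y 1 (z j)) ↔ InR b0 e0 (z j)) ∧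
      (InR b0 e0 (z j) → sc b0 e0 y 1 (z j + s * sc b0 e0 y 1 (z j)) = (1 + s) * sc b0 e0 y 1 (z j)) := by
    intro j
    have hc : Tendsto (fun s : ℂ => z j + s * sc b0 e0 y 1 (z j)) (𝓝 0) (𝓝 (z j)) := by
      have : Continuous (fun s : ℂ => z j + s * sc b0 e0 y 1 (z j)) := by fun_prop
      simpa using this.tendsto 0
    obtain ⟨N, h1, h2, h3, h4 | ⟨k, h4⟩⟩ := H.local (hz j)
    · filter_upwards [hc.eventually (h1.mem_nhds h2)] with s hs
      exact ⟨⟨fun a => absurd a (h4 _ hs), fun a => absurd a (h4 _ h2)⟩, fun a => absurd a (h4 _ h2)⟩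
    · filter_upwards [hc.eventually (h1.mem_nhds h2)] with s hs
      refine ⟨⟨fun _ => (h4 _ h2).1, fun _ => (h4 _ hs).1⟩, fun _ => ?_⟩
      rw [(h4 _ hs).2.2 1, (h4 _ h2).2.2 1]
      ring
  have h1 : (fun s : ℂ => x1H b0 y e0 F (fun j => z j + s * sc b0 e0 y 1 (z j))) =ᶠ[𝓝 0]
      fun s => x1L (x1r b0 e0 z) (fun t => g (t * (1 + s))) := by
    filter_upwards [eventually_all.2 h0] with s hs
    have e1 : x1r b0 e0 (fun j => z j + s * sc b0 e0 y 1 (z j)) = x1r b0 e0 z := by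
      unfold x1r
      congr 1
      ext j
      simp only [Finset.mem_filter, Finset.mem_univ, true_and]
      exact (hs j).1
    show x1L (x1r b0 e0 (fun j => z j + s * sc b0 e0 y 1 (z j))) _ = _
    rw [e1]
    congr 1
    funext t
    show F _ = F _
    congr 1
    funext j
    by_cases hj : InR b0 e0 (z j)
    · rw [x1A_in _ _ hj, x1A_in _ _ ((hs j).1.2 hj), (hs j).2 hj]
      ring
    · rw [x1A_out _ _ hj, x1A_out _ _ (fun a => hj ((hs j).1.1 a)), x1_sc_not y 1 hj]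
      ring
  rw [h1.deriv_eq]
  have hstar : ∀ t ∈ O, ∀ s : ℝ, s ∈ Icc (0 : ℝ) 1 → (s : ℂ) * t ∈ O := fun t ht s hs => H.Om_star q (z, t) ht s hs
  have hD : X1D {s : ℂ | 1 + s ∈ O} {p : ℂ × ℂ | p.2 * (1 + p.1) ∈ O} := by
    refine ⟨hOO.op.preimage (by fun_prop), hOO.op.preimage (by fun_prop), fun p hp s hs => ?_, fun s hs t ht => ?_⟩
    · show (s : ℂ) * p.2 * (1 + p.1) ∈ O
      rw [mul_assoc]
      exact hstar _ hp s hs
    · exact hstar _ hs t ht
  have hfd : DifferentiableOn ℂ (fun p : ℂ × ℂ => g (p.2 * (1 + p.1))) {p : ℂ × ℂ | p.2 * (1 + p.1) ∈ O} :=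
    hgd.comp (f := fun p : ℂ × ℂ => p.2 * (1 + p.1)) (by fun_prop) fun p hp => hp
  have hm0 : (0 : ℂ) ∈ {s : ℂ | 1 + s ∈ O} := by
    show (1 : ℂ) + 0 ∈ O
    rw [add_zero]
    exact hOO.one
  rw [(X1P.L (E := ℂ) (x1r b0 e0 z)).deriv hD hfd hm0]
  have h2 : x1L (x1r b0 e0 z) (fun t => deriv (fun s : ℂ => g (t * (1 + s))) 0) =
      x1L (x1r b0 e0 z) (fun t => t * deriv g t) := by
    refine (X1G.L _).congr O hOO _ _ fun t ht => ?_
    show deriv (fun s : ℂ => g (t * (1 + s))) 0 = t * deriv g t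
    have a1 : HasDerivAt g (deriv g t) (t * (1 + 0)) := by
      rw [add_zero, mul_one]
      exact (hgd.differentiableAt (hOO.op.mem_nhds ht)).hasDerivAt
    have a2 : HasDerivAt (fun s : ℂ => t * (1 + s)) (t * 1) 0 := ((hasDerivAt_id' (0 : ℂ)).const_add 1).const_mul t
    have a3 : HasDerivAt (fun s : ℂ => g (t * (1 + s))) (deriv g t * (t * 1)) 0 :=
      HasDerivAt.comp (h₂ := g) (0 : ℂ) a1 a2
    rw [a3.deriv]
    ring
  rw [h2]
  have h3 := x1_euler (x1r b0 e0 z) hOO hgd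
  have h4 : g 1 = F z := H.A_one hF hz
  rw [h4] at h3
  exact h3

end

end Pool.Agent.Helper67.DO
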