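import Pool.Agent.Helper59.DO.X1s
import Pool.Agent.Helper59.DO.X1c
import Pool.Agent.Helper38.DO.E1
import Pool.Agent.Helper26.DO.X2

set_option autoImplicit false

/-!
# X1, part d: assembly
-/

namespace Pool.Agent.Helper67.DO

open Set Filter Topology Metric MeasureTheory
open scoped BigOperators Real

noncomputable section

/-! ### the coefficient `x1C1` -/

theorem x1C1_eq (y : ℝ) (q : ℕ) (F : (Fin (q + 1) → ℂ) → ℂ) (v : Fin q → ℂ) :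
    x1C1 y q F v = lib_pd 0 F (Fin.cons (y : ℂ) v) := (lib_pd_zero_cons F (y : ℂ) v).symm

theorem x1C1_hol {q : ℕ} {U : Set ℂ} (hU : IsOpen U) {y : ℝ} (hy : (y : ℂ) ∈ U) {F : (Fin (q + 1) → ℂ) → ℂ}
    (hF : DifferentiableOn ℂ F (PU (q + 1) U)) : DifferentiableOn ℂ (x1C1 y q F) (PU q U) := by
  have h1 : DifferentiableOn ℂ (fun v : Fin q → ℂ => lib_pd 0 F (Fin.cons (y : ℂ) v)) (PU q U) := by
    refine (lib_pd_hol 0 hU hF).comp (f := fun v : Fin q → ℂ => (Fin.cons (y : ℂ) v : Fin (q + 1) → ℂ)) ?_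
      fun v hv => lib_cons_PU hy hv
    refine Differentiable.differentiableOn ?_
    rw [differentiable_pi]
    intro j
    refine Fin.cases ?_ (fun k => ?_) j
    · exact differentiable_const _
    · exact differentiable_apply k
  exact h1.congr fun v _ => x1C1_eq y q F v

theorem x1C1_bound {q : ℕ} {U : Set ℂ} (hU : IsOpen U) {y : ℝ} {r : ℝ} (hr : 0 < r) (hb : ball (y : ℂ) r ⊆ U)
    {F : (Fin (q + 1) → ℂ) → ℂ} (hF : DifferentiableOn ℂ F (PU (q + 1) U)) {M : ℝ}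
    (hM : ∀ z ∈ PU (q + 1) U, ‖F z‖ ≤ M) {v : Fin q → ℂ} (hv : v ∈ PU q U) : ‖x1C1 y q F v‖ ≤ M / r :=
  e1_deriv_bound hU hF hr hM hb hv

theorem x1C1_BO {q : ℕ} {U : Set ℂ} (hU : IsOpen U) {y : ℝ} {r : ℝ} (hr : 0 < r) (hb : ball (y : ℂ) r ⊆ U)
    {F : (Fin (q + 1) → ℂ) → ℂ} (hF : BO (q + 1) U F) : BO q U (x1C1 y q F) := by
  have hy : (y : ℂ) ∈ U := hb (mem_ball_self hr)
  obtain ⟨C, hC⟩ := hF.bdd
  refine ⟨x1C1_hol hU hy hF.hol, ?_, ?_, C / r, fun v hv => x1C1_bound hU hr hb hF.hol hC hv⟩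
  · intro v hv i
    apply Filter.EventuallyEq.deriv_eq
    filter_upwards [hU.mem_nhds hy] with t ht
    exact e1_per_cons_succ hF ht hv i
  · intro v hv σ
    have h1 : (fun t : ℂ => F (Fin.cons t (fun i => v (σ i)) : Fin (q + 1) → ℂ)) =ᶠ[𝓝 (y : ℂ)]
        fun t => ((Equiv.Perm.sign σ : ℤ) : ℂ) * F (Fin.cons t v : Fin (q + 1) → ℂ) := by
      filter_upwards [hU.mem_nhds hy] with t ht
      exact e1_alt_cons hF ht hv σ
    show deriv (fun t : ℂ => F (Fin.cons t (fun i => v (σ i)) : Fin (q + 1) → ℂ)) (y : ℂ) = _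
    rw [h1.deriv_eq, deriv_const_mul_field]
    rfl

/-- `c_1 (∂ F) = 2 c_2 F - ∂ (c_1 F)` -/
theorem x1C1_dd {q : ℕ} {U : Set ℂ} (hU : IsOpen U) {y : ℝ} (hy : (y : ℂ) ∈ U)
    {F : (Fin (q + 2) → ℂ) → ℂ} (hF : BO (q + 2) U F) {v : Fin q → ℂ} (hv : v ∈ PU q U) :
    x1C1 y q (dd (q + 1) F) v = 2 * x1C2 y q F v - dd q (x1C1 y (q + 1) F) v := by
  have n01 : (0 : Fin (q + 2)) ≠ 1 := by
    intro h
    have := congrArg Fin.val h
    simp at this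
  -- the terms
  have e0 : (fun s : ℂ => dd (q + 1) F (Fin.cons s v)) =
      fun s => lib_pd 1 F (Fin.cons s (Fin.cons s v : Fin (q + 1) → ℂ)) +
      ∑ i : Fin q, (-1 : ℂ) ^ ((i : ℕ) + 1) *
        lib_pd i.succ.succ F (Fin.cons s (i.succ.insertNth (v i) v : Fin (q + 1) → ℂ)) := by
    funext s
    rw [lib_dd_eq, Fin.sum_univ_succ]
    congr 1
    · simp only [Fin.val_zero, pow_zero, one_mul, Fin.cons_zero, e8_ins_succ, e8_ins_zero]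
      rfl
    · refine Finset.sum_congr rfl fun i _ => ?_
      rw [Fin.val_succ]
      simp only [Fin.cons_succ, e8_ins_succ]
  have hU2 := lib_isOpen_PU (q + 2) hU
  have hd1 : DifferentiableOn ℂ (fun s : ℂ => lib_pd 1 F (Fin.cons s (Fin.cons s v : Fin (q + 1) → ℂ))) U := by
    refine (lib_pd_hol 1 hU hF.hol).comp (t := PU (q + 2) U)
      (f := fun s : ℂ => (Fin.cons s (Fin.cons s v : Fin (q + 1) → ℂ) : Fin (q + 2) → ℂ)) ?_
      fun s hs => lib_cons_PU hs (lib_cons_PU hs hv)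
    refine Differentiable.differentiableOn ?_
    refine differentiable_pi.2 fun i => ?_
    refine Fin.cases ?_ (fun i => ?_) i
    · exact differentiable_id
    refine Fin.cases ?_ (fun i => ?_) i
    · exact differentiable_id
    · exact differentiable_const _
  have hmem : ∀ (i : Fin q) {s : ℂ}, s ∈ U →
      (Fin.cons s (i.succ.insertNth (v i) v : Fin (q + 1) → ℂ) : Fin (q + 2) → ℂ) ∈ PU (q + 2) U :=
    fun i s hs => lib_cons_PU hs (mem_PU_insert hv (hv i) i.succ)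
  have hd2 : ∀ i : Fin q, DifferentiableOn ℂ
      (fun s : ℂ => lib_pd i.succ.succ F (Fin.cons s (i.succ.insertNth (v i) v : Fin (q + 1) → ℂ))) U := by
    intro i
    refine (lib_pd_hol i.succ.succ hU hF.hol).comp (t := PU (q + 2) U)
      (f := fun s : ℂ => (Fin.cons s (i.succ.insertNth (v i) v : Fin (q + 1) → ℂ) : Fin (q + 2) → ℂ)) ?_
      fun s hs => hmem i hs
    refine Differentiable.differentiableOn ?_
    refine differentiable_pi.2 fun i => ?_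
    refine Fin.cases ?_ (fun i => ?_) i
    · exact differentiable_id
    · exact differentiable_const _
  have e1 : x1C1 y q (dd (q + 1) F) v =
      deriv (fun s : ℂ => lib_pd 1 F (Fin.cons s (Fin.cons s v : Fin (q + 1) → ℂ))) (y : ℂ) +
      ∑ i : Fin q, (-1 : ℂ) ^ ((i : ℕ) + 1) * deriv (fun s : ℂ =>
        lib_pd i.succ.succ F (Fin.cons s (i.succ.insertNth (v i) v : Fin (q + 1) → ℂ))) (y : ℂ) := by
    unfold x1C1
    rw [e0]
    have a1 := (hd1.differentiableAt (hU.mem_nhds hy)).hasDerivAt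
    have a2 : ∀ i ∈ (Finset.univ : Finset (Fin q)), HasDerivAt (fun s : ℂ => (-1 : ℂ) ^ ((i : ℕ) + 1) *
        lib_pd i.succ.succ F (Fin.cons s (i.succ.insertNth (v i) v : Fin (q + 1) → ℂ)))
        ((-1 : ℂ) ^ ((i : ℕ) + 1) * deriv (fun s : ℂ =>
          lib_pd i.succ.succ F (Fin.cons s (i.succ.insertNth (v i) v : Fin (q + 1) → ℂ))) (y : ℂ)) (y : ℂ) :=
      fun i _ => (((hd2 i).differentiableAt (hU.mem_nhds hy)).hasDerivAt).const_mul _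
    exact (a1.add (HasDerivAt.fun_sum a2)).deriv
  -- first term
  have hyy : (Fin.cons (y : ℂ) (Fin.cons (y : ℂ) v : Fin (q + 1) → ℂ) : Fin (q + 2) → ℂ) ∈ PU (q + 2) U :=
    lib_cons_PU hy (lib_cons_PU hy hv)
  have e2 : deriv (fun s : ℂ => lib_pd 1 F (Fin.cons s (Fin.cons s v : Fin (q + 1) → ℂ))) (y : ℂ) =
      2 * x1C2 y q F v := by
    have b1 := lib_pd_diag (F := lib_pd 1 F) (0 : Fin (q + 2)) 1 n01
      (z := Fin.cons (y : ℂ) (Fin.cons (y : ℂ) v : Fin (q + 1) → ℂ)) (t0 := (y : ℂ)) (by rw [Fin.cons_zero])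
      (by rfl) ((lib_pd_hol 1 hU hF.hol).differentiableAt (hU2.mem_nhds hyy))
    have b2 : (fun s : ℂ => lib_pd 1 F (Fin.cons s (Fin.cons s v : Fin (q + 1) → ℂ))) = fun t : ℂ =>
        lib_pd 1 F (Function.update (Function.update (Fin.cons (y : ℂ) (Fin.cons (y : ℂ) v : Fin (q + 1) → ℂ)) 0 t) 1 t) := by
      funext t
      congr 1
      have c1 : (1 : Fin (q + 2)) = Fin.succ 0 := rfl
      rw [c1, Fin.update_cons_zero, ← Fin.cons_update, Fin.update_cons_zero]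
    rw [b2, b1]
    have b3 : lib_pd 0 (lib_pd 1 F) (Fin.cons (y : ℂ) (Fin.cons (y : ℂ) v : Fin (q + 1) → ℂ)) = 0 := by
      refine lib_pds_zero [0, 1] hU hF 0 1 n01 ?_ hyy rfl
      simp only [List.map_cons, List.map_nil, Equiv.swap_apply_left, Equiv.swap_apply_right]
      exact List.Perm.swap _ _ _
    have b4 : lib_pd 1 (lib_pd 1 F) (Fin.cons (y : ℂ) (Fin.cons (y : ℂ) v : Fin (q + 1) → ℂ)) = 2 * x1C2 y q F v := by
      unfold x1C2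
      rw [lib_iter2]
      have c1 : (1 : Fin (q + 2)) = Fin.succ 0 := rfl
      rw [c1, lib_pd_succ_cons, lib_pd_zero_cons]
      simp only [lib_pd_succ_cons, lib_pd_zero_cons]
      ring
    rw [b3, b4, zero_add]
  -- the other terms
  have e3 : ∀ i : Fin q, deriv (fun s : ℂ =>
        lib_pd i.succ.succ F (Fin.cons s (i.succ.insertNth (v i) v : Fin (q + 1) → ℂ))) (y : ℂ) =
      lib_pd i.succ (x1C1 y (q + 1) F) (i.succ.insertNth (v i) v) := by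
    intro i
    rw [← lib_pd_zero_cons (lib_pd i.succ.succ F) (y : ℂ) (i.succ.insertNth (v i) v : Fin (q + 1) → ℂ),
      lib_pd_comm 0 i.succ.succ hU hF.hol (hmem i hy), lib_pd_succ_cons]
    congr 1
    funext w
    exact (x1C1_eq y (q + 1) F w).symm
  rw [e1, e2, lib_dd_eq, sub_eq_add_neg, ← Finset.sum_neg_distrib]
  congr 1
  refine Finset.sum_congr rfl fun i _ => ?_
  rw [e3 i, pow_succ]
  ring

/-! ### the homotopy -/

/-- the homotopy operator -/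
def x1hop (b0 y e0 : ℝ) : (q : ℕ) → ((Fin q → ℂ) → ℂ) → ((Fin (q + 1) → ℂ) → ℂ)
  | 0, F => wd (sc b0 e0 y 1) 0 (x1H b0 y e0 F)
  | (q + 1), F => fun z => wd (sc b0 e0 y 1) (q + 1) (x1H b0 y e0 F) z +
      (1 / 2) * wd (sc b0 e0 y 0) (q + 1) (wd (sc b0 e0 y 2) q (ext0 b0 e0 (x1C1 y q F))) z

variable {b0 y e0 w h : ℝ} {V : Set ℂ}

theorem X1S.y_U (H : X1S b0 y e0 w h V) : (y : ℂ) ∈ x1U b0 e0 w h V := H.Q_sub H.y_mem

theorem X1S.ball_U (H : X1S b0 y e0 w h V) :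
    ball (y : ℂ) (min h (min (y - b0 - w) (e0 - w - y))) ⊆ x1U b0 e0 w h V := by
  intro x hx
  rw [mem_ball, dist_eq_norm] at hx
  have := H.Q_ball' hx
  rw [add_sub_cancel] at this
  exact H.Q_sub this

theorem X1S.H_BO (H : X1S b0 y e0 w h V) {q : ℕ} {F : (Fin q → ℂ) → ℂ} (hF : BO q (x1U b0 e0 w h V) F) :
    BO q (x1U b0 e0 w h V) (x1H b0 y e0 F) := by
  have h1 := H.H_F hF.x1
  obtain ⟨C, _, hC⟩ := H.H_bound
  obtain ⟨B, hB⟩ := hF.bdd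
  exact ⟨h1.hol, h1.per, h1.alt, C q * B, fun z hz => hC q F hF.hol B hB z hz⟩

theorem X1S.C1_BO (H : X1S b0 y e0 w h V) {q : ℕ} {F : (Fin (q + 1) → ℂ) → ℂ} (hF : BO (q + 1) (x1U b0 e0 w h V) F) :
    BO q V (x1C1 y q F) := (x1C1_BO H.opU H.delta_pos H.ball_U hF).mono H.V_sub

theorem X1S.ext_BO (H : X1S b0 y e0 w h V) {q : ℕ} {G : (Fin q → ℂ) → ℂ} (hG : BO q V G) :
    BO q (x1U b0 e0 w h V) (ext0 b0 e0 G) := x2_ext_BO H.w0 H.opV H.perV H.disj hG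

theorem X1S.wd_BO (H : X1S b0 y e0 w h V) (h4 : ST_E4) (p : ℕ) {q : ℕ} {F : (Fin q → ℂ) → ℂ}
    (hF : BO q (x1U b0 e0 w h V) F) : BO (q + 1) (x1U b0 e0 w h V) (wd (sc b0 e0 y p) q F) ∧ ∀ M : ℝ,
      (∀ z ∈ PU q (x1U b0 e0 w h V), ‖F z‖ ≤ M) → ∀ z ∈ PU (q + 1) (x1U b0 e0 w h V),
        ‖wd (sc b0 e0 y p) q F z‖ ≤ (q + 1) * (1 + h) ^ p * M :=
  x2_wd_sc h4 H.w0 H.h0 H.e1 H.by0 H.ye H.opV H.perV H.disj p hF

theorem X1S.hop_BO (H : X1S b0 y e0 w h V) (h4 : ST_E4) (q : ℕ) {F : (Fin q → ℂ) → ℂ}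
    (hF : BO q (x1U b0 e0 w h V) F) : BO (q + 1) (x1U b0 e0 w h V) (x1hop b0 y e0 q F) := by
  cases q with
  | zero => exact (H.wd_BO h4 1 (H.H_BO hF)).1
  | succ q =>
    exact (H.wd_BO h4 1 (H.H_BO hF)).1.add
      ((H.wd_BO h4 0 (H.wd_BO h4 2 (H.ext_BO (H.C1_BO hF))).1).1.smul (1 / 2))

theorem X1S.hop_bound (H : X1S b0 y e0 w h V) (h4 : ST_E4) : ∃ C : ℕ → ℝ, ∀ q F, BO q (x1U b0 e0 w h V) F →
    ∀ B : ℝ, (∀ z ∈ PU q (x1U b0 e0 w h V), ‖F z‖ ≤ B) →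
      ∀ z ∈ PU (q + 1) (x1U b0 e0 w h V), ‖x1hop b0 y e0 q F z‖ ≤ C q * B := by
  obtain ⟨C, _, hC⟩ := H.H_bound
  set δ := min h (min (y - b0 - w) (e0 - w - y)) with hδ
  have hδ0 : 0 < δ := H.delta_pos
  refine ⟨fun q => ((q : ℝ) + 1) * (1 + h) ^ 1 * C q + 1 / 2 * (((q : ℝ) + 1) * (1 + h) ^ 0 *
    ((q : ℝ) * (1 + h) ^ 2 * (1 / δ))), fun q F hF B hB z hz => ?_⟩
  have hB0 : 0 ≤ B := (norm_nonneg _).trans (hB _ (e4_removeNth_mem hz 0))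
  have k1 := (H.wd_BO h4 1 (H.H_BO hF)).2 (C q * B) (fun u hu => hC q F hF.hol B hB u hu) z hz
  cases q with
  | zero =>
    refine k1.trans (le_of_eq ?_)
    push_cast
    ring
  | succ q =>
    have a1 : ∀ v ∈ PU q V, ‖x1C1 y q F v‖ ≤ B / δ := fun v hv =>
      x1C1_bound H.opU hδ0 H.ball_U hF.hol hB (PU_mono H.V_sub hv)
    have a2 : ∀ v ∈ PU q (x1U b0 e0 w h V), ‖ext0 b0 e0 (x1C1 y q F) v‖ ≤ B / δ := fun v hv =>
      x2_ext_bound H.w0 H.disj (div_nonneg hB0 hδ0.le) a1 hv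
    have b0' := H.ext_BO (H.C1_BO hF)
    have a3 := (H.wd_BO h4 2 b0').2 _ a2
    have a4 := (H.wd_BO h4 0 (H.wd_BO h4 2 b0').1).2 _ a3 z hz
    show ‖wd (sc b0 e0 y 1) (q + 1) (x1H b0 y e0 F) z +
      (1 / 2) * wd (sc b0 e0 y 0) (q + 1) (wd (sc b0 e0 y 2) q (ext0 b0 e0 (x1C1 y q F))) z‖ ≤ _
    have a5 : ‖(1 / 2 : ℂ) * wd (sc b0 e0 y 0) (q + 1) (wd (sc b0 e0 y 2) q (ext0 b0 e0 (x1C1 y q F))) z‖ ≤
        1 / 2 * ((((q + 1 : ℕ) : ℝ) + 1) * (1 + h) ^ 0 * (((q : ℝ) + 1) * (1 + h) ^ 2 * (B / δ))) := by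
      rw [norm_mul]
      have e : ‖(1 / 2 : ℂ)‖ = 1 / 2 := by norm_num
      rw [e]
      exact mul_le_mul_of_nonneg_left a4 (by norm_num)
    refine (norm_add_le _ _).trans ((add_le_add k1 a5).trans (le_of_eq ?_))
    push_cast
    ring

theorem X1S.ext_congr (H : X1S b0 y e0 w h V) {q : ℕ} {F G : (Fin q → ℂ) → ℂ} (hFG : ∀ v ∈ PU q V, F v = G v)
    {z : Fin q → ℂ} (hz : z ∈ PU q (x1U b0 e0 w h V)) : ext0 b0 e0 F z = ext0 b0 e0 G z := by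
  unfold ext0
  split_ifs with hc
  · exact hFG z (x2_mem_V H.w0 hz hc)
  · rfl

theorem x1_ext_lin {q : ℕ} (F G : (Fin q → ℂ) → ℂ) (c d : ℂ) :
    ext0 b0 e0 (fun v => c * F v + d * G v) = fun z => c * ext0 b0 e0 F z + d * ext0 b0 e0 G z := by
  funext z
  unfold ext0
  split_ifs
  · rfl
  · ring

theorem X1S.wd_congr (_ : X1S b0 y e0 w h V) (a : ℂ → ℂ) {q : ℕ} {F G : (Fin q → ℂ) → ℂ}
    (hFG : ∀ v ∈ PU q (x1U b0 e0 w h V), F v = G v) {z : Fin (q + 1) → ℂ}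
    (hz : z ∈ PU (q + 1) (x1U b0 e0 w h V)) : wd a q F z = wd a q G z := x2_wd_congr (fun _ _ => rfl) hFG hz

theorem X1S.hop_lin (H : X1S b0 y e0 w h V) (q : ℕ) {F G : (Fin q → ℂ) → ℂ} (c : ℂ)
    (hF : BO q (x1U b0 e0 w h V) F) (hG : BO q (x1U b0 e0 w h V) G) {z : Fin (q + 1) → ℂ}
    (hz : z ∈ PU (q + 1) (x1U b0 e0 w h V)) :
    x1hop b0 y e0 q (fun x => c * F x + G x) z = c * x1hop b0 y e0 q F z + x1hop b0 y e0 q G z := by
  have k1 : wd (sc b0 e0 y 1) q (x1H b0 y e0 (fun x => c * F x + G x)) z =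
      c * wd (sc b0 e0 y 1) q (x1H b0 y e0 F) z + wd (sc b0 e0 y 1) q (x1H b0 y e0 G) z := by
    have e1 := H.wd_congr (sc b0 e0 y 1) (F := x1H b0 y e0 (fun x => c * F x + G x))
      (G := fun u => c * x1H b0 y e0 F u + 1 * x1H b0 y e0 G u) (fun v hv => by
        rw [H.H_lin c hF.hol hG.hol hv, one_mul]) hz
    rw [e1, x2_wd_lin, one_mul]
  cases q with
  | zero => exact k1
  | succ q =>
    have e0' : ∀ v ∈ PU q V, x1C1 y q (fun x => c * F x + G x) v = c * x1C1 y q F v + 1 * x1C1 y q G v := by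
      intro v hv
      have hv' := PU_mono H.V_sub hv
      have a1 := (e1_hasDerivAt_cons H.opU hF.hol H.y_U hv').differentiableAt.hasDerivAt
      have a2 := (e1_hasDerivAt_cons H.opU hG.hol H.y_U hv').differentiableAt.hasDerivAt
      rw [one_mul]
      exact ((a1.const_mul c).add a2).deriv
    have e1 : ∀ v ∈ PU q (x1U b0 e0 w h V), ext0 b0 e0 (x1C1 y q (fun x => c * F x + G x)) v =
        c * ext0 b0 e0 (x1C1 y q F) v + 1 * ext0 b0 e0 (x1C1 y q G) v := by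
      intro v hv
      rw [H.ext_congr e0' hv, x1_ext_lin]
    have e2 : ∀ v ∈ PU (q + 1) (x1U b0 e0 w h V),
        wd (sc b0 e0 y 2) q (ext0 b0 e0 (x1C1 y q (fun x => c * F x + G x))) v =
        c * wd (sc b0 e0 y 2) q (ext0 b0 e0 (x1C1 y q F)) v +
          1 * wd (sc b0 e0 y 2) q (ext0 b0 e0 (x1C1 y q G)) v := by
      intro v hv
      rw [H.wd_congr _ e1 hv, x2_wd_lin]
    have e3 : wd (sc b0 e0 y 0) (q + 1) (wd (sc b0 e0 y 2) q (ext0 b0 e0 (x1C1 y q (fun x => c * F x + G x)))) z =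
        c * wd (sc b0 e0 y 0) (q + 1) (wd (sc b0 e0 y 2) q (ext0 b0 e0 (x1C1 y q F))) z +
          1 * wd (sc b0 e0 y 0) (q + 1) (wd (sc b0 e0 y 2) q (ext0 b0 e0 (x1C1 y q G))) z := by
      rw [H.wd_congr _ e2 hz, x2_wd_lin]
    show wd (sc b0 e0 y 1) (q + 1) (x1H b0 y e0 (fun x => c * F x + G x)) z + (1 / 2) * wd (sc b0 e0 y 0) (q + 1)
        (wd (sc b0 e0 y 2) q (ext0 b0 e0 (x1C1 y q (fun x => c * F x + G x)))) z =
      c * (wd (sc b0 e0 y 1) (q + 1) (x1H b0 y e0 F) z + (1 / 2) * wd (sc b0 e0 y 0) (q + 1)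
        (wd (sc b0 e0 y 2) q (ext0 b0 e0 (x1C1 y q F))) z) +
      (wd (sc b0 e0 y 1) (q + 1) (x1H b0 y e0 G) z + (1 / 2) * wd (sc b0 e0 y 0) (q + 1)
        (wd (sc b0 e0 y 2) q (ext0 b0 e0 (x1C1 y q G))) z)
    rw [k1, e3]
    ring

/-- `PiE = ext0 + u_3 part` -/
theorem x1_PiE (q : ℕ) (F : (Fin q → ℂ) → ℂ) (z : Fin q → ℂ) :
    PiE b0 e0 y q F z = ext0 b0 e0 F z + x1W3 b0 e0 y q F z := by
  match q, F, z with
  | 0, F, z => simp [PiE, x1W3]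
  | 1, F, z => simp [PiE, x1W3]
  | 2, F, z => simp [PiE, x1W3]
  | (n + 3), F, z => rfl

/-- `∂ (1 ∧ x² ∧ G) = 2 x ∧ G - 1 ∧ ∂ (x² ∧ G)` -/
theorem X1S.dd_one_sq (H : X1S b0 y e0 w h V) (h3 : ST_E3) (h4 : ST_E4) {q : ℕ} {G : (Fin q → ℂ) → ℂ} (hG : BO q V G)
    {z : Fin (q + 1) → ℂ} (hz : z ∈ PU (q + 1) (x1U b0 e0 w h V)) :
    dd (q + 1) (wd (sc b0 e0 y 0) (q + 1) (wd (sc b0 e0 y 2) q (ext0 b0 e0 G))) z =
      2 * wd (sc b0 e0 y 1) q (ext0 b0 e0 G) z -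
        wd (sc b0 e0 y 0) q (dd q (wd (sc b0 e0 y 2) q (ext0 b0 e0 G))) z := by
  have hH := H.ext_BO hG
  have hM := (H.wd_BO h4 2 hH).1
  rw [x2_cartan h3 H.w0 H.e1 H.opV H.perV H.disj 0 hM hz]
  congr 1
  rw [x2_L_wd H.opU _ (H.sc_diff 2) hH.hol hz]
  have e1 : wd (sc b0 e0 y 2) q (x2_L (sc b0 e0 y 0) q (ext0 b0 e0 G)) z = 0 := by
    rw [← x2_wd_zero (sc b0 e0 y 2) q z]
    exact H.wd_congr _ (fun v hv => x2_L_ext H.w0 H.e1 H.opV H.disj 0 G hv) hz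
  rw [e1, add_zero, ← x2_wd_smul]
  refine x2_wd_congr (U := x1U b0 e0 w h V) (fun t ht => ?_) (fun _ _ => rfl) hz
  show sc b0 e0 y 0 t * deriv (sc b0 e0 y 2) t - sc b0 e0 y 2 t * deriv (sc b0 e0 y 0) t = _
  rw [(H.sc_hasDeriv 2 ht).deriv, (H.sc_hasDeriv 0 ht).deriv]
  have e2 := x2_sc_mul H.e1 y 0 1 t
  rw [zero_add] at e2
  push_cast
  show sc b0 e0 y 0 t * (2 * sc b0 e0 y 1 t) - sc b0 e0 y 2 t * (0 * sc b0 e0 y (0 - 1) t) = 2 * sc b0 e0 y 1 t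
  linear_combination 2 * e2

theorem X1S.main (H : X1S b0 y e0 w h V) (h3 : ST_E3) (h4 : ST_E4) (hW : ST_X1W) (q : ℕ) {F : (Fin (q + 1) → ℂ) → ℂ}
    (hF : BO (q + 1) (x1U b0 e0 w h V) F) {z : Fin (q + 1) → ℂ} (hz : z ∈ PU (q + 1) (x1U b0 e0 w h V)) :
    dd (q + 1) (x1hop b0 y e0 (q + 1) F) z + x1hop b0 y e0 q (dd q F) z = F z - PiE b0 e0 y (q + 1) F z := by
  have hHF := H.H_BO hF
  set G := x1C1 y q F with hGdef
  have hG : BO q V G := H.C1_BO hF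
  have hA := (H.wd_BO h4 1 hHF).1
  have hM := (H.wd_BO h4 2 (H.ext_BO hG)).1
  have hB := (H.wd_BO h4 0 hM).1
  -- the first part
  have e1 : dd (q + 1) (wd (sc b0 e0 y 1) (q + 1) (x1H b0 y e0 F)) z + wd (sc b0 e0 y 1) q (x1H b0 y e0 (dd q F)) z =
      F z - x1F0 b0 y e0 F z := by
    rw [← H.euler hF.x1 hz]
    have a1 := h3 q (x1U b0 e0 w h V) (sc b0 e0 y 1) H.opU H.perU (H.sc_diff 1) _ hHF z hz
    rw [← a1]
    congr 1
    exact H.wd_congr _ (fun v hv => (H.H_dd hF.hol hv).symm) hz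
  -- the left hand side
  have e2 : dd (q + 1) (x1hop b0 y e0 (q + 1) F) z =
      dd (q + 1) (wd (sc b0 e0 y 1) (q + 1) (x1H b0 y e0 F)) z +
      (1 / 2) * (2 * wd (sc b0 e0 y 1) q (ext0 b0 e0 G) z -
        wd (sc b0 e0 y 0) q (dd q (wd (sc b0 e0 y 2) q (ext0 b0 e0 G))) z) := by
    rw [← H.dd_one_sq h3 h4 hG hz]
    have a1 := dd_lin H.opU (F := wd (sc b0 e0 y 0) (q + 1) (wd (sc b0 e0 y 2) q (ext0 b0 e0 G)))
      (G := wd (sc b0 e0 y 1) (q + 1) (x1H b0 y e0 F)) hB.hol hA.hol (1 / 2) hz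
    have a2 : x1hop b0 y e0 (q + 1) F = fun x => (1 / 2) * wd (sc b0 e0 y 0) (q + 1)
        (wd (sc b0 e0 y 2) q (ext0 b0 e0 G)) x + wd (sc b0 e0 y 1) (q + 1) (x1H b0 y e0 F) x := by
      funext x
      show _ + _ = _
      rw [add_comm]
    rw [a2, a1]
    ring
  have e3 := hW b0 y e0 w h V H (q + 1) F hF.x1 z hz
  have e3' : x1F0 b0 y e0 F z = ext0 b0 e0 F z + wd (sc b0 e0 y 1) q (ext0 b0 e0 G) z +
      x1W2 b0 e0 y (q + 1) F z + x1W3 b0 e0 y (q + 1) F z := e3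
  rw [x1_PiE, e2]
  cases q with
  | zero =>
    have c1 : wd (sc b0 e0 y 0) 0 (dd 0 (wd (sc b0 e0 y 2) 0 (ext0 b0 e0 G))) z = 0 := by
      have : dd 0 (wd (sc b0 e0 y 2) 0 (ext0 b0 e0 G)) = fun _ => 0 := by
        funext u
        unfold dd
        simp
      rw [this, x2_wd_zero]
    have c2 : x1hop b0 y e0 0 (dd 0 F) z = wd (sc b0 e0 y 1) 0 (x1H b0 y e0 (dd 0 F)) z := rfl
    have c3' : x1W2 b0 e0 y (0 + 1) F z = 0 := rfl
    rw [c1, c2]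
    rw [e3', c3'] at e1
    linear_combination e1
  | succ q =>
    have c0 : ∀ v ∈ PU (q + 1) (x1U b0 e0 w h V), dd (q + 1) (wd (sc b0 e0 y 2) (q + 1) (ext0 b0 e0 G)) v =
        (-1) * wd (sc b0 e0 y 2) q (ext0 b0 e0 (dd q G)) v + 0 * 0 := by
      intro v hv
      rw [x2_cartan h3 H.w0 H.e1 H.opV H.perV H.disj 2 (H.ext_BO hG) hv,
        x2_L_ext H.w0 H.e1 H.opV H.disj 2 G hv]
      have a1 := H.wd_congr (sc b0 e0 y 2) (F := dd q (ext0 b0 e0 G)) (G := ext0 b0 e0 (dd q G))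
        (fun u hu => x2_ext_dd H.w0 H.opV H.disj G hu) hv
      rw [a1]
      ring
    have c1 : wd (sc b0 e0 y 0) (q + 1) (dd (q + 1) (wd (sc b0 e0 y 2) (q + 1) (ext0 b0 e0 G))) z =
        - wd (sc b0 e0 y 0) (q + 1) (wd (sc b0 e0 y 2) q (ext0 b0 e0 (dd q G))) z := by
      have a1 := H.wd_congr (sc b0 e0 y 0) c0 hz
      rw [a1]
      have a2 := x2_wd_lin (sc b0 e0 y 0) (q + 1) (-1) 0 (wd (sc b0 e0 y 2) q (ext0 b0 e0 (dd q G))) (fun _ => 0) z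
      rw [a2]
      ring
    have c2 : x1hop b0 y e0 (q + 1) (dd (q + 1) F) z = wd (sc b0 e0 y 1) (q + 1) (x1H b0 y e0 (dd (q + 1) F)) z +
        (1 / 2) * wd (sc b0 e0 y 0) (q + 1) (wd (sc b0 e0 y 2) q (ext0 b0 e0 (x1C1 y q (dd (q + 1) F)))) z := rfl
    have d0 : ∀ v ∈ PU q V, x1C1 y q (dd (q + 1) F) v = 2 * x1C2 y q F v + (-1) * dd q G v := by
      intro v hv
      rw [x1C1_dd H.opU H.y_U hF (PU_mono H.V_sub hv)]
      ring
    have d1 : ∀ v ∈ PU q (x1U b0 e0 w h V), ext0 b0 e0 (x1C1 y q (dd (q + 1) F)) v =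
        2 * ext0 b0 e0 (x1C2 y q F) v + (-1) * ext0 b0 e0 (dd q G) v := by
      intro v hv
      rw [H.ext_congr d0 hv, x1_ext_lin]
    have d2 : ∀ v ∈ PU (q + 1) (x1U b0 e0 w h V), wd (sc b0 e0 y 2) q (ext0 b0 e0 (x1C1 y q (dd (q + 1) F))) v =
        2 * wd (sc b0 e0 y 2) q (ext0 b0 e0 (x1C2 y q F)) v +
          (-1) * wd (sc b0 e0 y 2) q (ext0 b0 e0 (dd q G)) v := by
      intro v hv
      rw [H.wd_congr _ d1 hv, x2_wd_lin]
    have d3 : wd (sc b0 e0 y 0) (q + 1) (wd (sc b0 e0 y 2) q (ext0 b0 e0 (x1C1 y q (dd (q + 1) F)))) z =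
        2 * wd (sc b0 e0 y 0) (q + 1) (wd (sc b0 e0 y 2) q (ext0 b0 e0 (x1C2 y q F))) z +
          (-1) * wd (sc b0 e0 y 0) (q + 1) (wd (sc b0 e0 y 2) q (ext0 b0 e0 (dd q G))) z := by
      rw [H.wd_congr _ d2 hz, x2_wd_lin]
    have d4 : x1W2 b0 e0 y (q + 1 + 1) F z =
        wd (sc b0 e0 y 0) (q + 1) (wd (sc b0 e0 y 2) q (ext0 b0 e0 (x1C2 y q F))) z := rfl
    rw [c1, c2, d3]
    rw [e3', d4] at e1
    linear_combination e1

/-- X1 from X1W -/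
theorem st_X1_of (h3 : ST_E3) (h4 : ST_E4) (hW : ST_X1W) : ST_X1 := by
  intro b0 y e0 hb hy he
  refine ⟨x1hop b0 y e0, fun w h hw hh hbw hew V hV hP nV => ?_⟩
  have H : X1S b0 y e0 w h V := ⟨hb, hy, he, hw, hh, hbw, hew, hV, hP, nV⟩
  exact ⟨fun q F hF => H.hop_BO h4 q hF, H.hop_bound h4, fun q F G c hF hG z hz => H.hop_lin q c hF hG hz,
    fun q F hF z hz => H.main h3 h4 hW q hF hz⟩

end

end Pool.Agent.Helper67.DO
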