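import Pool.Agent.Helper59.DO.X1b

set_option autoImplicit false

/-!
# X1: the weight zero part (statement)
-/

namespace Pool.Agent.Helper67.DO

open Set Filter Topology Metric MeasureTheory
open scoped BigOperators Real

noncomputable section

/-- `∂_1 F (y, v)` -/
def x1C1 (y : ℝ) (q : ℕ) (F : (Fin (q + 1) → ℂ) → ℂ) (v : Fin q → ℂ) : ℂ :=
  deriv (fun t : ℂ => F (Fin.cons t v)) (y : ℂ)

/-- `(1/2) ∂_2^2 F (y, y, v)` -/
def x1C2 (y : ℝ) (q : ℕ) (F : (Fin (q + 2) → ℂ) → ℂ) (v : Fin q → ℂ) : ℂ :=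
  (1 / 2) * iteratedDeriv 2 (fun t : ℂ => F (Fin.cons (y : ℂ) (Fin.cons t v : Fin (q + 1) → ℂ))) (y : ℂ)

/-- part with one variable in the strip -/
def x1W1 (b0 e0 y : ℝ) : (q : ℕ) → ((Fin q → ℂ) → ℂ) → ((Fin q → ℂ) → ℂ)
  | 0, _ => fun _ => 0
  | (q + 1), F => wd (sc b0 e0 y 1) q (ext0 b0 e0 (x1C1 y q F))

/-- part with two variables in the strip -/
def x1W2 (b0 e0 y : ℝ) : (q : ℕ) → ((Fin q → ℂ) → ℂ) → ((Fin q → ℂ) → ℂ)
  | 0, _ => fun _ => 0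
  | 1, _ => fun _ => 0
  | (n + 2), F => wd (sc b0 e0 y 0) (n + 1) (wd (sc b0 e0 y 2) n (ext0 b0 e0 (x1C2 y n F)))

/-- part with three variables in the strip -/
def x1W3 (b0 e0 y : ℝ) : (q : ℕ) → ((Fin q → ℂ) → ℂ) → ((Fin q → ℂ) → ℂ)
  | 0, _ => fun _ => 0
  | 1, _ => fun _ => 0
  | 2, _ => fun _ => 0
  | (n + 3), F => uw b0 e0 y n (c3 y n F)

/-- X1W: the part of weight zero, `x1c r` = Taylor coefficient of order `r` at `0` -/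
def ST_X1W : Prop := ∀ (b0 y e0 w h : ℝ) (V : Set ℂ), X1S b0 y e0 w h V → ∀ (q : ℕ) (F : (Fin q → ℂ) → ℂ),
  X1F q (x1U b0 e0 w h V) F → ∀ z ∈ PU q (x1U b0 e0 w h V),
    x1c (x1r b0 e0 z) (fun t => F (x1A b0 y e0 t z))
      = ext0 b0 e0 F z + x1W1 b0 e0 y q F z + x1W2 b0 e0 y q F z + x1W3 b0 e0 y q F z

end

end Pool.Agent.Helper67.DO
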